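import Pool.Agent.Work.MP_8ac988_an.EP.Stmts

/-!
# Part COR: the correlation as an inner product
-/

set_option autoImplicit false

open MeasureTheory Filter Topology
open scoped ENNReal Manifold ContDiff ComplexConjugate

namespace Pool.Agent.Work.MP_8ac988_an.EP.NCOR

variable {X : Type} [MeasurableSpace X] {μ : Measure X}

/-- The Koopman operator acts by composition. -/
theorem koop_coe (S : X → X) (hS : MeasurePreserving S μ μ) (v : Lp ℂ 2 μ) :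
    (koop S hS v : X → ℂ) =ᵐ[μ] v ∘ S := Lp.coeFn_compMeasurePreserving v hS

theorem koop_iter (S : X → X) (hS : MeasurePreserving S μ μ) (v : Lp ℂ 2 μ) (i : ℕ) :
    (((koop S hS)^[i] v : Lp ℂ 2 μ) : X → ℂ) =ᵐ[μ] v ∘ S^[i] := by
  induction i with
  | zero => exact Filter.EventuallyEq.rfl
  | succ n ih =>
    rw [Function.iterate_succ_apply']
    refine (koop_coe S hS _).trans ?_
    have h := hS.quasiMeasurePreserving.ae_eq_comp ih
    rw [Function.iterate_succ, ← Function.comp_assoc]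
    exact h

theorem koop_iter_of_ae (S : X → X) (hS : MeasurePreserving S μ μ) (v : Lp ℂ 2 μ) (v' : X → ℂ)
    (hv : (v : X → ℂ) =ᵐ[μ] v') (i : ℕ) :
    (((koop S hS)^[i] v : Lp ℂ 2 μ) : X → ℂ) =ᵐ[μ] v' ∘ S^[i] :=
  (koop_iter S hS v i).trans ((hS.iterate i).quasiMeasurePreserving.ae_eq_comp hv)

theorem emb_iter (T : X → X) (hT : MeasurableEmbedding T) (i : ℕ) :
    MeasurableEmbedding (T^[i]) := by
  induction i with
  | zero => exact MeasurableEmbedding.id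
  | succ n ih => rw [Function.iterate_succ]; exact ih.comp hT

theorem koop_eig_iter (S : X → X) (hS : MeasurePreserving S μ μ) (e : Lp ℂ 2 μ) (α : ℂ)
    (h : koop S hS e = α • e) (i : ℕ) : (koop S hS)^[i] e = α ^ i • e := by
  induction i with
  | zero => simp
  | succ n ih =>
    rw [Function.iterate_succ_apply', ih, map_smul, h, smul_smul, pow_succ]

theorem eig_norm (S : X → X) (hS : MeasurePreserving S μ μ) (e : Lp ℂ 2 μ) (α : ℂ) (he : e ≠ 0)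
    (h : koop S hS e = α • e) : ‖α‖ = 1 := by
  have h1 : ‖koop S hS e‖ = ‖e‖ := LinearIsometry.norm_map _ _
  rw [h, norm_smul] at h1
  have h2 : 0 < ‖e‖ := norm_pos_iff.2 he
  exact (mul_eq_right₀ h2.ne').1 h1

theorem eig_ae (S : X → X) (hS : MeasurePreserving S μ μ) (e : Lp ℂ 2 μ) (α : ℂ)
    (h : koop S hS e = α • e) (i : ℕ) : ∀ᵐ x ∂μ, e (S^[i] x) = α ^ i * e x := by
  have h1 := koop_iter S hS e i
  rw [koop_eig_iter S hS e α h i] at h1
  filter_upwards [h1, Lp.coeFn_smul (α ^ i) e] with x hx1 hx2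
  rw [hx2] at hx1
  simpa using hx1.symm

theorem exists_bound {g : X → ℂ} (hg : MemLp g ⊤ μ) : ∃ C : ℝ, 0 ≤ C ∧ ∀ᵐ x ∂μ, ‖g x‖ ≤ C := by
  refine ⟨(eLpNorm g ⊤ μ).toReal, ENNReal.toReal_nonneg, ?_⟩
  have h := ae_le_eLpNormEssSup (f := g) (μ := μ)
  filter_upwards [h] with x hx
  rw [← toReal_enorm]
  refine ENNReal.toReal_mono hg.eLpNorm_lt_top.ne ?_
  rw [eLpNorm_exponent_top]
  exact hx

/-- The function whose class is `Y m n`. -/
def yy (T₁ T₂ : X ≃ᵐ X) (g h : X → ℂ) (m n : ℕ) (x : X) : ℂ :=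
  g (T₁^[m] (T₂^[n] x)) * h (T₁^[n] (T₂^[m] x))

theorem mp_two (T₁ T₂ : X ≃ᵐ X) (h1 : MeasurePreserving T₁ μ μ) (h2 : MeasurePreserving T₂ μ μ)
    (m n : ℕ) : MeasurePreserving (fun x => T₁^[m] (T₂^[n] x)) μ μ :=
  (h1.iterate m).comp (h2.iterate n)

theorem yy_memLp [IsProbabilityMeasure μ] (T₁ T₂ : X ≃ᵐ X) (h1 : MeasurePreserving T₁ μ μ)
    (h2 : MeasurePreserving T₂ μ μ) {g h : X → ℂ} (hg : MemLp g ⊤ μ) (hh : MemLp h ⊤ μ)
    (m n : ℕ) : MemLp (yy T₁ T₂ g h m n) 2 μ := by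
  have hg' : MemLp (g ∘ fun x => T₁^[m] (T₂^[n] x)) ⊤ μ :=
    hg.comp_measurePreserving (mp_two T₁ T₂ h1 h2 m n)
  have hh' : MemLp (h ∘ fun x => T₁^[n] (T₂^[m] x)) ⊤ μ :=
    hh.comp_measurePreserving (mp_two T₁ T₂ h1 h2 n m)
  have : MemLp (yy T₁ T₂ g h m n) ⊤ μ := hh'.mul hg'
  exact this.mono_exponent le_top

theorem comm_iter (T₁ T₂ : X ≃ᵐ X) (hc : ∀ x, T₁ (T₂ x) = T₂ (T₁ x)) (m n : ℕ) (x : X) :
    T₁^[m] (T₂^[n] x) = T₂^[n] (T₁^[m] x) := by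
  have h : Function.Commute (T₁ : X → X) (T₂ : X → X) := hc
  exact (h.iterate_iterate m n) x

/-- The product iterates. -/
theorem prod_iter (T₁ T₂ : X ≃ᵐ X) (hc : ∀ x, T₁ (T₂ x) = T₂ (T₁ x)) (i : ℕ) (x : X) :
    (fun x => T₁ (T₂ x))^[i] x = T₁^[i] (T₂^[i] x) := by
  have h : Function.Commute (T₁ : X → X) (T₂ : X → X) := hc
  exact congrFun (h.comp_iterate i) x

theorem symm_comm (T₁ T₂ : X ≃ᵐ X) (hc : ∀ x, T₁ (T₂ x) = T₂ (T₁ x)) (x : X) :
    T₂ (T₁.symm x) = T₁.symm (T₂ x) := by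
  apply T₁.injective
  rw [hc, T₁.apply_symm_apply, T₁.apply_symm_apply]

theorem s_iter (T₁ T₂ : X ≃ᵐ X) (hc : ∀ x, T₁ (T₂ x) = T₂ (T₁ x)) (n m : ℕ) (x : X) :
    (fun x => T₂ (T₁.symm x))^[n] (T₁^[m + n] x) = T₁^[m] (T₂^[n] x) := by
  have h : Function.Commute (T₂ : X → X) (T₁.symm : X → X) := symm_comm T₁ T₂ hc
  have h3 : (fun x => T₂ (T₁.symm x))^[n] (T₁^[m + n] x) = T₂^[n] (T₁.symm^[n] (T₁^[m + n] x)) :=
    congrFun (h.comp_iterate n) _
  have h4 : T₁.symm^[n] (T₁^[m + n] x) = T₁^[m] x := by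
    rw [add_comm m n, Function.iterate_add_apply]
    have h5 : Function.LeftInverse (T₁.symm : X → X) (T₁ : X → X) := T₁.symm_apply_apply
    exact (h5.iterate n) _
  rw [h3, h4, comm_iter T₁ T₂ hc m n]

theorem yy_shift (T₁ T₂ : X ≃ᵐ X) (hc : ∀ x, T₁ (T₂ x) = T₂ (T₁ x)) (g h : X → ℂ)
    (m n i : ℕ) (x : X) :
    yy T₁ T₂ g h (m + i) (n + i) x = yy T₁ T₂ g h m n (T₁^[i] (T₂^[i] x)) := by
  unfold yy
  have e1 : ∀ a b : ℕ, T₁^[a + i] (T₂^[b + i] x) = T₁^[a] (T₂^[b] (T₁^[i] (T₂^[i] x))) := by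
    intro a b
    rw [Function.iterate_add_apply, ← comm_iter T₁ T₂ hc i b, Function.iterate_add_apply]
  rw [e1, e1]

theorem a_iter (T₁ T₂ : X ≃ᵐ X) (hc : ∀ x, T₁ (T₂ x) = T₂ (T₁ x)) (i : ℕ) (x : X) :
    (fun x => T₁.symm (T₂.symm x))^[i] (T₁^[i] (T₂^[i] x)) = x := by
  rw [← prod_iter T₁ T₂ hc i x]
  have h5 : Function.LeftInverse (fun x => T₁.symm (T₂.symm x)) (fun x => T₁ (T₂ x)) := by
    intro y
    show T₁.symm (T₂.symm (T₁ (T₂ y))) = y
    rw [hc, T₂.symm_apply_apply, T₁.symm_apply_apply]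
  exact (h5.iterate i) _

theorem prf : S_COR := by
  intro X _ μ _ T₁ T₂ h1 h2 hA hS hc f g h hf hg hh
  have hFm : MemLp (fun x => conj (f x)) 2 μ := by
    have : MemLp (star f) 2 μ := (hf.mono_exponent le_top).star
    exact this
  have hGm : MemLp g 2 μ := hg.mono_exponent le_top
  have hYm : ∀ m n : ℕ, MemLp (yy T₁ T₂ g h m n) 2 μ := yy_memLp T₁ T₂ h1 h2 hg hh
  have hY : ∀ m n : ℕ, ((hYm m n).toLp (yy T₁ T₂ g h m n) : X → ℂ) =ᵐ[μ] yy T₁ T₂ g h m n :=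
    fun m n => (hYm m n).coeFn_toLp
  obtain ⟨Cg, hCg0, hCg⟩ := exists_bound hg
  obtain ⟨Ch, hCh0, hCh⟩ := exists_bound hh
  refine ⟨hFm.toLp _, hGm.toLp _, fun m n => (hYm m n).toLp (yy T₁ T₂ g h m n), Cg * Ch,
    ?_, ?_, ?_, ?_⟩
  · intro m n
    rw [L2.inner_def]
    unfold corr
    refine integral_congr_ae ?_
    filter_upwards [hFm.coeFn_toLp, hY m n] with x hx1 hx2
    rw [hx1, hx2, RCLike.inner_apply]
    simp only [yy, Complex.conj_conj]
    ring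
  · intro m n
    rw [Lp.norm_toLp]
    have hb : ∀ᵐ x ∂μ, ‖yy T₁ T₂ g h m n x‖ ≤ Cg * Ch := by
      have b1 := (mp_two T₁ T₂ h1 h2 m n).quasiMeasurePreserving.ae hCg
      have b2 := (mp_two T₁ T₂ h1 h2 n m).quasiMeasurePreserving.ae hCh
      filter_upwards [b1, b2] with x hx1 hx2
      unfold yy
      rw [norm_mul]
      exact mul_le_mul hx1 hx2 (norm_nonneg _) hCg0
    have h3 := eLpNorm_le_of_ae_bound (p := 2) hb
    simp only [measure_univ, ENNReal.one_rpow, one_mul] at h3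
    exact ENNReal.toReal_le_of_le_ofReal (mul_nonneg hCg0 hCh0) h3
  · intro x m n i
    rw [L2.inner_def, L2.inner_def]
    have hemb : MeasurableEmbedding (fun a => T₁^[i] (T₂^[i] a)) :=
      (emb_iter _ T₁.measurableEmbedding i).comp (emb_iter _ T₂.measurableEmbedding i)
    have hmp := mp_two T₁ T₂ h1 h2 i i
    refine Eq.trans ?_ (hmp.integral_comp hemb (fun a =>
      inner ℂ ((((koop (fun x => T₁.symm (T₂.symm x)) hA)^[i] x : Lp ℂ 2 μ) : X → ℂ) a)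
        (((hYm m n).toLp (yy T₁ T₂ g h m n) : Lp ℂ 2 μ) a)))
    refine integral_congr_ae ?_
    have k1 := koop_iter _ hA x i
    have k2 := hmp.quasiMeasurePreserving.ae k1
    have k3 := hmp.quasiMeasurePreserving.ae (hY m n)
    have k4 := hY ((m : ℕ) + i) ((n : ℕ) + i)
    filter_upwards [k2, k3, k4] with a ha2 ha3 ha4
    have e1 : (((hYm (psh m i) (psh n i)).toLp (yy T₁ T₂ g h (psh m i) (psh n i)) :
        Lp ℂ 2 μ) : X → ℂ) a = yy T₁ T₂ g h m n (T₁^[i] (T₂^[i] a)) := by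
      rw [← yy_shift T₁ T₂ hc g h m n i a]
      exact ha4
    rw [ha2, ha3, e1, Function.comp_apply, a_iter T₁ T₂ hc i a]
  · intro e α β he hk1 hk2
    have hα := eig_norm _ h1 e α he hk1
    have hβ := eig_norm _ h2 e β he hk2
    have hwm : MemLp (fun x => e x * conj (h x)) 2 μ := by
      have hh' : MemLp (fun x => conj (h x)) ⊤ μ := by
        have : MemLp (star h) ⊤ μ := hh.star
        exact this
      have : MemLp ((e : X → ℂ) * fun x => conj (h x)) 2 μ := MemLp.mul hh' (Lp.memLp e)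
      exact this
    refine ⟨hwm.toLp _, fun m n => ?_⟩
    rw [L2.inner_def, L2.inner_def]
    have hemb : MeasurableEmbedding (T₁^[(m : ℕ) + n]) := emb_iter _ T₁.measurableEmbedding _
    have hmp := h1.iterate ((m : ℕ) + n)
    rw [← hmp.integral_comp hemb (fun a => inner ℂ
      ((((koop (fun x => T₂ (T₁.symm x)) hS)^[(m : ℕ)] (hwm.toLp _) : Lp ℂ 2 μ) : X → ℂ) a)
      ((((koop (fun x => T₂ (T₁.symm x)) hS)^[(n : ℕ)] (hGm.toLp _) : Lp ℂ 2 μ) : X → ℂ) a)),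
      ← integral_const_mul]
    refine integral_congr_ae ?_
    have k1 := hmp.quasiMeasurePreserving.ae
      (koop_iter_of_ae _ hS (hwm.toLp _) _ hwm.coeFn_toLp m)
    have k2 := hmp.quasiMeasurePreserving.ae
      (koop_iter_of_ae _ hS (hGm.toLp _) _ hGm.coeFn_toLp n)
    have k3 := eig_ae _ h2 e β hk2 m
    have k4 := (h2.iterate (m : ℕ)).quasiMeasurePreserving.ae (eig_ae _ h1 e α hk1 n)
    filter_upwards [k1, k2, k3, k4, hY m n] with a ha1 ha2 ha3 ha4 ha5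
    have e5 : (((hYm m n).toLp (yy T₁ T₂ g h m n) : Lp ℂ 2 μ) : X → ℂ) a =
        yy T₁ T₂ g h m n a := ha5
    have s1 : (fun x => T₂ (T₁.symm x))^[(m : ℕ)] (T₁^[(m : ℕ) + n] a) =
        T₁^[(n : ℕ)] (T₂^[(m : ℕ)] a) := by
      rw [add_comm (m : ℕ) n]; exact s_iter T₁ T₂ hc m n a
    have s2 : (fun x => T₂ (T₁.symm x))^[(n : ℕ)] (T₁^[(m : ℕ) + n] a) =
        T₁^[(m : ℕ)] (T₂^[(n : ℕ)] a) := s_iter T₁ T₂ hc n m a
    rw [ha1, ha2, Function.comp_apply, Function.comp_apply, s1, s2, e5]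
    simp only [RCLike.inner_apply, map_mul, Complex.conj_conj, yy]
    rw [ha4, ha3]
    simp only [map_mul, map_pow]
    have hα2 : α * conj α = 1 := by
      rw [Complex.mul_conj, Complex.normSq_eq_norm_sq, hα]; norm_num
    have hβ2 : β * conj β = 1 := by
      rw [Complex.mul_conj, Complex.normSq_eq_norm_sq, hβ]; norm_num
    have hα3 : α ^ (n : ℕ) * conj α ^ (n : ℕ) = 1 := by rw [← mul_pow, hα2, one_pow]
    have hβ3 : β ^ (m : ℕ) * conj β ^ (m : ℕ) = 1 := by rw [← mul_pow, hβ2, one_pow]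
    have hh3 : ∀ G H E : ℂ, G * H * E =
        α ^ (n : ℕ) * β ^ (m : ℕ) * (G * (conj α ^ (n : ℕ) * (conj β ^ (m : ℕ) * E) * H)) := by
      intro G H E
      calc G * H * E = (α ^ (n : ℕ) * conj α ^ (n : ℕ)) * (β ^ (m : ℕ) * conj β ^ (m : ℕ)) *
            (G * H * E) := by rw [hα3, hβ3]; ring
        _ = _ := by ring
    exact hh3 _ _ _

end Pool.Agent.Work.MP_8ac988_an.EP.NCOR
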