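import Pool.Agent.Work.MP_8ac988_an.EP.Stmts

/-! MP_8ac988_an, companion theorem: part DEC. -/

set_option autoImplicit false

namespace Pool.Agent.Work.MP_8ac988_an.EP.NDEC

open Pool.Agent.Work.MP_8ac988_an.EP

theorem span_sum {H : Type} [AddCommGroup H] [Module ℂ H] {G : Set H}
    (hG : ∀ (c : ℂ), ∀ v ∈ G, c • v ∈ G) {y : H} (hy : y ∈ Submodule.span ℂ G) :
    ∃ (J : ℕ) (e : Fin J → H), (∀ j, e j ∈ G) ∧ y = ∑ j, e j := by
  induction hy using Submodule.span_induction with
  | mem x hx => exact ⟨1, fun _ => x, fun _ => hx, by simp⟩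
  | zero => exact ⟨0, fun _ => 0, fun j => j.elim0, by simp⟩
  | add x y _ _ hx hy =>
    obtain ⟨J, e, he, rfl⟩ := hx
    obtain ⟨K, d, hd, rfl⟩ := hy
    refine ⟨J + K, Fin.append e d, ?_, ?_⟩
    · intro j
      refine Fin.addCases (fun i => ?_) (fun i => ?_) j
      · rw [Fin.append_left]; exact he i
      · rw [Fin.append_right]; exact hd i
    · rw [Fin.sum_univ_add]
      simp only [Fin.append_left, Fin.append_right]
  | smul c x _ hx =>
    obtain ⟨J, e, he, rfl⟩ := hx
    exact ⟨J, fun j => c • e j, fun j => hG c _ (he j), by rw [Finset.smul_sum]⟩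

theorem prf : S_DEC := by
  intro H _ _ _ G V hG hV x δ hδ
  set K : Submodule ℂ H := (Submodule.span ℂ G).topologicalClosure with hK
  have hKc : IsClosed (K : Set H) := Submodule.isClosed_topologicalClosure _
  have : CompleteSpace K := hKc.completeSpace_coe
  set p : H := K.starProjection x with hp
  have hpK : p ∈ K := Submodule.starProjection_apply_mem K x
  have hpc : p ∈ closure (Submodule.span ℂ G : Set H) := by
    have := hpK
    rw [hK] at this
    exact this
  obtain ⟨y, hy, hd⟩ := Metric.mem_closure_iff.1 hpc δ hδ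
  obtain ⟨J, e, he, rfl⟩ := span_sum hG hy
  refine ⟨J, e, x - p, p - ∑ j, e j, he, ?_, ?_, by abel⟩
  · intro v hv
    have hvK : v ∈ K := by
      rw [hK]
      exact hV v hv
    have h1 : x - p ∈ Kᗮ := Submodule.sub_starProjection_mem_orthogonal x
    exact Submodule.inner_left_of_mem_orthogonal hvK h1
  · rw [← dist_eq_norm]
    exact hd.le

end Pool.Agent.Work.MP_8ac988_an.EP.NDEC
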