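import Pool.Agent.Work.MP_8ac988_an.EP.Stmts

/-!
Part ERG: if the composition of two commuting measure preserving maps is ergodic, then its
eigenfunctions are joint eigenfunctions.
-/

set_option autoImplicit false

open MeasureTheory Filter Topology
open scoped ENNReal

namespace Pool.Agent.Work.MP_8ac988_an.EP.NERG

theorem mult {X : Type} [MeasurableSpace X] {μ : Measure X} [IsProbabilityMeasure μ]
    {A S : X → X} (hA : Ergodic A μ) (hS : MeasurePreserving S μ μ)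
    (hcomm : ∀ x, S (A x) = A (S x)) {χ : X → ℂ} {c : ℂ} (hχ : AEStronglyMeasurable χ μ)
    (hc : ∀ᵐ x ∂μ, χ (A x) = c * χ x) (hc1 : ‖c‖ = 1) {s : ℝ} (hs0 : s ≠ 0)
    (hs : ∀ᵐ x ∂μ, ‖χ x‖ = s) : ∃ α : ℂ, ∀ᵐ x ∂μ, χ (S x) = α * χ x := by
  have hm : AEStronglyMeasurable (fun x => χ (S x) * (starRingEnd ℂ) (χ x)) μ :=
    (hχ.comp_measurePreserving hS).mul (Complex.continuous_conj.comp_aestronglyMeasurable hχ)
  have hcc : c * (starRingEnd ℂ) c = 1 := by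
    rw [Complex.mul_conj, Complex.normSq_eq_norm_sq, hc1]; norm_num
  have hinv : (fun x => χ (S x) * (starRingEnd ℂ) (χ x)) ∘ A =ᵐ[μ]
      fun x => χ (S x) * (starRingEnd ℂ) (χ x) := by
    have h2 := hS.quasiMeasurePreserving.ae hc
    filter_upwards [hc, h2] with x h1 h2
    simp only [Function.comp_apply]
    rw [hcomm, h2, h1, map_mul]
    calc c * χ (S x) * ((starRingEnd ℂ) c * (starRingEnd ℂ) (χ x))
        = (c * (starRingEnd ℂ) c) * (χ (S x) * (starRingEnd ℂ) (χ x)) := by ring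
      _ = _ := by rw [hcc, one_mul]
  obtain ⟨k, hk⟩ := hA.ae_eq_const_of_ae_eq_comp_ae hm hinv
  refine ⟨k / (s : ℂ) ^ 2, ?_⟩
  filter_upwards [hk, hs] with x h1 h2
  have h3 : χ (S x) * (starRingEnd ℂ) (χ x) = k := h1
  have h4 : χ x * (starRingEnd ℂ) (χ x) = (s : ℂ) ^ 2 := by
    rw [Complex.mul_conj, Complex.normSq_eq_norm_sq, h2]; push_cast; rfl
  have h5 : (s : ℂ) ^ 2 ≠ 0 := pow_ne_zero 2 (by exact_mod_cast hs0)
  rw [← h3, ← h4]
  have h6 : χ x * (starRingEnd ℂ) (χ x) ≠ 0 := by rw [h4]; exact h5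
  rw [div_mul_eq_mul_div, eq_div_iff h6]
  ring

theorem prf : S_ERG := by
  intro X _ μ _ T₁ T₂ h1 h2 hcomm hE χ c hχ hc ε _
  by_cases hz : χ =ᵐ[μ] 0
  · refine ⟨0, fun j => j.elim0, fun j => j.elim0, ?_⟩
    have : eLpNorm (fun x => χ x - ∑ j : Fin 0, (fun j => j.elim0 : Fin 0 → X → ℂ) j x) 2 μ = 0 := by
      rw [eLpNorm_congr_ae (g := fun _ => (0 : ℂ)) ?_]
      · simp
      · filter_upwards [hz] with x hx
        simp [hx]
    rw [this]
    exact zero_le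
  · have hN0 : eLpNorm χ 2 μ ≠ 0 := by
      intro h0
      exact hz ((eLpNorm_eq_zero_iff hχ.1 (by norm_num)).1 h0)
    have hNt : eLpNorm χ 2 μ ≠ ⊤ := hχ.2.ne
    have hAm : MeasurePreserving (fun x => T₁ (T₂ x)) μ μ := hE.toMeasurePreserving
    have hc1 : ‖c‖ = 1 := by
      have e1 : eLpNorm (χ ∘ fun x => T₁ (T₂ x)) 2 μ = eLpNorm χ 2 μ :=
        eLpNorm_comp_measurePreserving hχ.1 hAm
      have e2 : eLpNorm (χ ∘ fun x => T₁ (T₂ x)) 2 μ = ‖c‖ₑ * eLpNorm χ 2 μ := by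
        rw [← eLpNorm_const_smul]
        refine eLpNorm_congr_ae ?_
        filter_upwards [hc] with x hx
        simpa [Function.comp_apply] using hx
      rw [e1] at e2
      have e3 : ‖c‖ₑ = 1 := by
        have : ‖c‖ₑ * eLpNorm χ 2 μ = 1 * eLpNorm χ 2 μ := by rw [← e2, one_mul]
        exact (ENNReal.mul_left_inj hN0 hNt).1 this
      have e4 : ‖c‖ₑ = ENNReal.ofReal ‖c‖ := (ofReal_norm c).symm
      rw [e4] at e3
      exact ENNReal.ofReal_eq_one.1 e3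
    have hinv : (fun x => ‖χ x‖) ∘ (fun x => T₁ (T₂ x)) =ᵐ[μ] fun x => ‖χ x‖ := by
      filter_upwards [hc] with x hx
      simp only [Function.comp_apply]
      rw [hx, norm_mul, hc1, one_mul]
    obtain ⟨s, hs⟩ := hE.ae_eq_const_of_ae_eq_comp_ae hχ.1.norm hinv
    have hs' : ∀ᵐ x ∂μ, ‖χ x‖ = s := hs
    have hs0 : s ≠ 0 := by
      intro h0
      apply hz
      filter_upwards [hs'] with x hx
      rw [h0] at hx
      simpa using hx
    obtain ⟨α, hα⟩ := mult hE h1 (fun x => by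
      rw [hcomm x]) hχ.1 hc hc1 hs0 hs'
    obtain ⟨β, hβ⟩ := mult hE h2 (fun x => by
      rw [hcomm (T₂ x)]) hχ.1 hc hc1 hs0 hs'
    refine ⟨1, fun _ => χ, fun _ => ⟨hχ, α, β, hα, hβ⟩, ?_⟩
    simp

end Pool.Agent.Work.MP_8ac988_an.EP.NERG
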