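import Pool.Agent.Work.MP_8ac988_an.EP.Stmts

/-!
Part FOL: from windows to Følner averages.
-/

set_option autoImplicit false

open MeasureTheory Filter Topology
open scoped ENNReal Manifold ContDiff

namespace Pool.Agent.Work.MP_8ac988_an.EP.NFOL

theorem embZ_injective : Function.Injective embZ := by
  rintro ⟨a, b⟩ ⟨c, d⟩ h
  simp only [embZ, Prod.mk.injEq, Nat.cast_inj] at h
  exact Prod.ext (PNat.coe_injective h.1) (PNat.coe_injective h.2)

/-- The defect of a finite set under a translation of `ℤ²`. -/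
noncomputable def dfc (I : Finset (ℕ+ × ℕ+)) (k : ℤ × ℤ) : ℝ :=
  ((symmDiff ((I.image embZ).image (fun p => p + k)) (I.image embZ)).card : ℝ)

theorem shift_le (φ : ℕ+ × ℕ+ → ℝ) (B : ℝ) (h0 : ∀ p, 0 ≤ φ p) (hB : ∀ p, φ p ≤ B)
    (t : ℕ+ × ℕ+ → ℕ+ × ℕ+) (k : ℤ × ℤ) (ht : ∀ p, embZ (t p) = embZ p + k)
    (I : Finset (ℕ+ × ℕ+)) :
    ∑ p ∈ I, φ p ≤ ∑ p ∈ I, φ (t p) + B * dfc I k := by
  classical
  have hinj : Function.Injective t := by
    intro p q hpq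
    apply embZ_injective
    have := ht p
    rw [hpq, ht q] at this
    exact (add_right_cancel this).symm
  have h1 : ∑ p ∈ I, φ (t p) = ∑ q ∈ I.image t, φ q :=
    (Finset.sum_image (fun a _ b _ h => hinj h)).symm
  have h2 : ((I.image embZ).image (fun p => p + k)) = (I.image t).image embZ := by
    rw [Finset.image_image, Finset.image_image]
    apply Finset.image_congr
    intro p _
    simp only [Function.comp_apply]
    rw [ht]
  have h3 : dfc I k = ((symmDiff (I.image t) I).card : ℝ) := by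
    unfold dfc
    rw [h2, ← Finset.image_symmDiff _ _ embZ_injective,
      Finset.card_image_of_injective _ embZ_injective]
  rw [h1, h3]
  have h4 : ∑ p ∈ I, φ p ≤ ∑ q ∈ I.image t, φ q + ∑ q ∈ symmDiff (I.image t) I, φ q := by
    have h5 : I ⊆ (I.image t) ∪ symmDiff (I.image t) I := by
      intro x hx
      by_cases hx' : x ∈ I.image t
      · exact Finset.mem_union_left _ hx'
      · exact Finset.mem_union_right _ (by
          rw [Finset.mem_symmDiff]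
          exact Or.inr ⟨hx, hx'⟩)
    calc ∑ p ∈ I, φ p ≤ ∑ p ∈ (I.image t) ∪ symmDiff (I.image t) I, φ p :=
          Finset.sum_le_sum_of_subset_of_nonneg h5 (fun i _ _ => h0 i)
      _ ≤ ∑ q ∈ I.image t, φ q + ∑ q ∈ symmDiff (I.image t) I, φ q := by
          have h6 := Finset.sum_union_inter (f := φ) (s₁ := I.image t)
            (s₂ := symmDiff (I.image t) I)
          have h7 : 0 ≤ ∑ q ∈ (I.image t) ∩ symmDiff (I.image t) I, φ q :=
            Finset.sum_nonneg (fun i _ => h0 i)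
          linarith
  have h8 : ∑ q ∈ symmDiff (I.image t) I, φ q ≤ B * ((symmDiff (I.image t) I).card : ℝ) := by
    calc ∑ q ∈ symmDiff (I.image t) I, φ q ≤ ∑ _q ∈ symmDiff (I.image t) I, B :=
          Finset.sum_le_sum (fun q _ => hB q)
      _ = B * ((symmDiff (I.image t) I).card : ℝ) := by
          rw [Finset.sum_const, nsmul_eq_mul, mul_comm]
  linarith

/-- The average. -/
noncomputable def av (φ : ℕ+ × ℕ+ → ℝ) (I : Finset (ℕ+ × ℕ+)) : ℝ :=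
  (∑ p ∈ I, φ p) / (I.card : ℝ)

theorem av_ev (φ : ℕ+ × ℕ+ → ℝ) (B : ℝ) (h0 : ∀ p, 0 ≤ φ p) (hB : ∀ p, φ p ≤ B)
    (s : ℕ → ℕ+ × ℕ+ → ℕ+ × ℕ+) (v : ℕ → ℤ × ℤ) (hs : ∀ i p, embZ (s i p) = embZ p + v i)
    (hw : ∀ η : ℝ, 0 < η → ∃ L : ℕ, 0 < L ∧ ∀ p, ∑ i ∈ Finset.range L, φ (s i p) ≤ η * L)
    (I : ℕ → Finset (ℕ+ × ℕ+)) (hI : IsFolner I) (η : ℝ) (hη : 0 < η) :
    ∀ᶠ j in atTop, av φ (I j) ≤ η := by
  obtain ⟨L, hL, hw⟩ := hw (η / 2) (by positivity)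
  have hLr : (0 : ℝ) < L := by exact_mod_cast hL
  have hBn : 0 ≤ B := (h0 (1, 1)).trans (hB (1, 1))
  have h1 : ∀ j, av φ (I j) ≤ η / 2 +
      B / L * ∑ i ∈ Finset.range L, dfc (I j) (v i) / ((I j).card : ℝ) := by
    intro j
    have hc : (0 : ℝ) < ((I j).card : ℝ) := by
      exact_mod_cast Finset.card_pos.mpr (hI.1 j)
    have h2 : (L : ℝ) * ∑ p ∈ I j, φ p ≤
        ∑ i ∈ Finset.range L, (∑ p ∈ I j, φ (s i p) + B * dfc (I j) (v i)) := by
      calc (L : ℝ) * ∑ p ∈ I j, φ p = ∑ _i ∈ Finset.range L, ∑ p ∈ I j, φ p := by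
            rw [Finset.sum_const, Finset.card_range, nsmul_eq_mul]
        _ ≤ _ := Finset.sum_le_sum (fun i _ => shift_le φ B h0 hB (s i) (v i) (hs i) (I j))
    have h3 : ∑ i ∈ Finset.range L, ∑ p ∈ I j, φ (s i p) ≤ ((I j).card : ℝ) * (η / 2 * L) := by
      rw [Finset.sum_comm]
      calc ∑ p ∈ I j, ∑ i ∈ Finset.range L, φ (s i p) ≤ ∑ _p ∈ I j, (η / 2 * L) :=
            Finset.sum_le_sum (fun p _ => hw p)
        _ = ((I j).card : ℝ) * (η / 2 * L) := by rw [Finset.sum_const, nsmul_eq_mul]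
    rw [Finset.sum_add_distrib, ← Finset.mul_sum] at h2
    unfold av
    rw [← Finset.sum_div, div_le_iff₀ hc]
    have h4 : (η / 2 + B / L * ((∑ i ∈ Finset.range L, dfc (I j) (v i)) / ((I j).card : ℝ))) *
        ((I j).card : ℝ) = (((I j).card : ℝ) * (η / 2 * L) +
          B * ∑ i ∈ Finset.range L, dfc (I j) (v i)) / L := by
      field_simp
    rw [h4, le_div_iff₀ hLr]
    linarith
  have h5 : Tendsto (fun j => η / 2 +
      B / L * ∑ i ∈ Finset.range L, dfc (I j) (v i) / ((I j).card : ℝ)) atTop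
      (𝓝 (η / 2 + B / L * ∑ _i ∈ Finset.range L, (0 : ℝ))) := by
    apply Tendsto.const_add
    apply Tendsto.const_mul
    apply tendsto_finsetSum
    intro i _
    exact hI.2 (v i)
  rw [Finset.sum_const_zero, mul_zero, add_zero] at h5
  have h6 : ∀ᶠ j in atTop, η / 2 +
      B / L * ∑ i ∈ Finset.range L, dfc (I j) (v i) / ((I j).card : ℝ) < η :=
    h5.eventually (gt_mem_nhds (by linarith))
  filter_upwards [h6] with j hj
  exact (h1 j).trans hj.le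

theorem enn_av (a : ℕ+ × ℕ+ → ℂ) (I : Finset (ℕ+ × ℕ+)) (hI : I.Nonempty) :
    (∑ p ∈ I, ‖a p‖ₑ ^ 2) / ((I.card : ℝ≥0∞)) = ENNReal.ofReal (av (fun p => ‖a p‖ ^ 2) I) := by
  have hc : (0 : ℝ) < (I.card : ℝ) := by exact_mod_cast Finset.card_pos.mpr hI
  unfold av
  rw [ENNReal.ofReal_div_of_pos hc, ENNReal.ofReal_natCast,
    ENNReal.ofReal_sum_of_nonneg (fun i _ => by positivity)]
  congr 1
  apply Finset.sum_congr rfl
  intro p _
  rw [ENNReal.ofReal_pow (norm_nonneg _), ofReal_norm]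

theorem av_mono (φ ψ : ℕ+ × ℕ+ → ℝ) (h : ∀ p, φ p ≤ ψ p) (I : Finset (ℕ+ × ℕ+)) :
    av φ I ≤ av ψ I := by
  unfold av
  exact div_le_div_of_nonneg_right (Finset.sum_le_sum (fun p _ => h p)) (by positivity)

theorem av_comb (φ ψ : ℕ+ × ℕ+ → ℝ) (c : ℝ) (I : Finset (ℕ+ × ℕ+)) (hI : I.Nonempty) :
    av (fun p => 3 * (φ p + ψ p + c)) I = 3 * (av φ I + av ψ I + c) := by
  have hc : (0 : ℝ) < (I.card : ℝ) := by exact_mod_cast Finset.card_pos.mpr hI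
  unfold av
  rw [← Finset.mul_sum, Finset.sum_add_distrib, Finset.sum_add_distrib, Finset.sum_const,
    nsmul_eq_mul]
  field_simp

theorem prf : S_FOL := by
  intro r₁ r₂ r₃ M δ hδ hM1 hM2 hr3 hw1 hw2
  have hM : 0 ≤ M := (norm_nonneg _).trans (hM1 (1, 1))
  have key : ∀ I : ℕ → Finset (ℕ+ × ℕ+), IsFolner I →
      limsup (fun j => (∑ p ∈ I j, ‖r₁ p + r₂ p + r₃ p‖ₑ ^ 2) / ((I j).card : ℝ≥0∞)) atTop ≤
        ENNReal.ofReal (3 * δ ^ 2) := by
    intro I hI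
    apply ENNReal.le_of_forall_pos_le_add
    intro ε hε _
    have hε' : (0 : ℝ) < (ε : ℝ) := hε
    have e1 : ∀ᶠ j in atTop, av (fun p => ‖r₁ p‖ ^ 2) (I j) ≤ (ε : ℝ) / 6 := by
      refine av_ev (fun p => ‖r₁ p‖ ^ 2) (M ^ 2) (fun p => by positivity)
        (fun p => pow_le_pow_left₀ (norm_nonneg _) (hM1 p) 2)
        (fun i p => (psh p.1 i, psh p.2 i)) (fun i => ((i : ℤ), (i : ℤ))) ?_ ?_ I hI _
        (by positivity)
      · intro i p
        simp only [embZ, psh, PNat.mk_coe, Nat.cast_add, Prod.mk_add_mk]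
      · intro η hη
        obtain ⟨L, hL, h⟩ := hw1 η hη
        exact ⟨L, hL, fun p => h p.1 p.2⟩
    have e2 : ∀ᶠ j in atTop, av (fun p => ‖r₂ p‖ ^ 2) (I j) ≤ (ε : ℝ) / 6 := by
      refine av_ev (fun p => ‖r₂ p‖ ^ 2) (M ^ 2) (fun p => by positivity)
        (fun p => pow_le_pow_left₀ (norm_nonneg _) (hM2 p) 2)
        (fun i p => (psh p.1 i, p.2)) (fun i => ((i : ℤ), 0)) ?_ ?_ I hI _
        (by positivity)
      · intro i p
        simp only [embZ, psh, PNat.mk_coe, Nat.cast_add, Prod.mk_add_mk, add_zero]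
      · intro η hη
        obtain ⟨L, hL, h⟩ := hw2 η hη
        exact ⟨L, hL, fun p => h p.1 p.2⟩
    refine limsup_le_of_le (by isBoundedDefault) ?_
    filter_upwards [e1, e2] with j h1 h2
    rw [enn_av (fun p => r₁ p + r₂ p + r₃ p) (I j) (hI.1 j)]
    have h3 : av (fun p => ‖r₁ p + r₂ p + r₃ p‖ ^ 2) (I j) ≤ 3 * δ ^ 2 + ε := by
      calc av (fun p => ‖r₁ p + r₂ p + r₃ p‖ ^ 2) (I j)
          ≤ av (fun p => 3 * (‖r₁ p‖ ^ 2 + ‖r₂ p‖ ^ 2 + δ ^ 2)) (I j) := by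
            apply av_mono
            intro p
            have t1 : ‖r₁ p + r₂ p + r₃ p‖ ≤ ‖r₁ p‖ + ‖r₂ p‖ + ‖r₃ p‖ := norm_add₃_le
            have t2 : ‖r₃ p‖ ^ 2 ≤ δ ^ 2 := pow_le_pow_left₀ (norm_nonneg _) (hr3 p) 2
            have t3 : ‖r₁ p + r₂ p + r₃ p‖ ^ 2 ≤ (‖r₁ p‖ + ‖r₂ p‖ + ‖r₃ p‖) ^ 2 :=
              pow_le_pow_left₀ (norm_nonneg _) t1 2
            nlinarith [sq_nonneg (‖r₁ p‖ - ‖r₂ p‖), sq_nonneg (‖r₁ p‖ - ‖r₃ p‖),
              sq_nonneg (‖r₂ p‖ - ‖r₃ p‖)]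
        _ = 3 * (av (fun p => ‖r₁ p‖ ^ 2) (I j) + av (fun p => ‖r₂ p‖ ^ 2) (I j) + δ ^ 2) :=
            av_comb _ _ _ _ (hI.1 j)
        _ ≤ 3 * δ ^ 2 + ε := by linarith
    calc ENNReal.ofReal (av (fun p => ‖r₁ p + r₂ p + r₃ p‖ ^ 2) (I j))
        ≤ ENNReal.ofReal (3 * δ ^ 2 + ε) := ENNReal.ofReal_le_ofReal h3
      _ = ENNReal.ofReal (3 * δ ^ 2) + ε := by
          rw [ENNReal.ofReal_add (by positivity) (by positivity), ENNReal.ofReal_coe_nnreal]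
  unfold seminorm2
  have h4 : (⨆ (I : ℕ → Finset (ℕ+ × ℕ+)) (_ : IsFolner I),
      limsup (fun j => (∑ p ∈ I j, ‖r₁ p + r₂ p + r₃ p‖ₑ ^ 2) / ((I j).card : ℝ≥0∞)) atTop) ≤
      (ENNReal.ofReal (2 * δ)) ^ (2 : ℝ) := by
    refine iSup_le (fun I => iSup_le (fun hI => (key I hI).trans ?_))
    rw [ENNReal.rpow_ofNat, ← ENNReal.ofReal_pow (by positivity)]
    exact ENNReal.ofReal_le_ofReal (by nlinarith)
  calc (⨆ (I : ℕ → Finset (ℕ+ × ℕ+)) (_ : IsFolner I),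
      limsup (fun j => (∑ p ∈ I j, ‖r₁ p + r₂ p + r₃ p‖ₑ ^ 2) / ((I j).card : ℝ≥0∞)) atTop) ^
        (1 / 2 : ℝ)
      ≤ ((ENNReal.ofReal (2 * δ)) ^ (2 : ℝ)) ^ (1 / 2 : ℝ) :=
        ENNReal.rpow_le_rpow h4 (by norm_num)
    _ = ENNReal.ofReal (2 * δ) := by
        rw [← ENNReal.rpow_mul]
        norm_num

end Pool.Agent.Work.MP_8ac988_an.EP.NFOL
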