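import Pool.Agent.Work.MP_8ac988_an.EP.Stmts

/-!
# MP_8ac988_an, part NIL: a retracted trigonometric polynomial is a 1-step nilsequence
-/

set_option autoImplicit false

open MeasureTheory Filter Topology
open scoped ENNReal Manifold ContDiff

namespace Pool.Agent.Work.MP_8ac988_an.EP.NNIL

/-- The retraction of `ℂ` to the closed disc of radius `R`. -/
noncomputable def rho (R : ℝ) (z : ℂ) : ℂ := ((R / max R ‖z‖ : ℝ) : ℂ) * z

theorem continuous_rho {R : ℝ} (hR : 0 ≤ R) : Continuous (rho R) := by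
  rcases hR.eq_or_lt with h0 | hpos
  · subst h0
    have : rho 0 = fun _ => (0 : ℂ) := by
      funext z
      simp [rho]
    rw [this]
    exact continuous_const
  · unfold rho
    refine Continuous.mul ?_ continuous_id
    refine Complex.continuous_ofReal.comp ?_
    refine continuous_const.div (continuous_const.max continuous_norm) ?_
    intro z
    exact (lt_of_lt_of_le hpos (le_max_left _ _)).ne'

theorem norm_rho_le {R : ℝ} (hR : 0 ≤ R) (z : ℂ) : ‖rho R z‖ ≤ R := by
  rcases hR.eq_or_lt with h0 | hpos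
  · subst h0
    simp [rho]
  · have hm : 0 < max R ‖z‖ := lt_of_lt_of_le hpos (le_max_left _ _)
    unfold rho
    rw [norm_mul, Complex.norm_real, Real.norm_of_nonneg (div_nonneg hR hm.le),
      div_mul_eq_mul_div, div_le_iff₀ hm]
    exact mul_le_mul_of_nonneg_left (le_max_right _ _) hR

theorem norm_sub_rho_le {R : ℝ} (hR : 0 ≤ R) (w z : ℂ) (hw : ‖w‖ ≤ R) :
    ‖w - rho R z‖ ≤ ‖w - z‖ := by
  rcases le_or_gt ‖z‖ R with hz | hz
  · rcases hR.eq_or_lt with h0 | hpos
    · subst h0
      have hz0 : z = 0 := norm_le_zero_iff.1 hz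
      subst hz0
      simp [rho]
    · have : rho R z = z := by
        unfold rho
        rw [max_eq_left hz, div_self hpos.ne']
        simp
      rw [this]
  · have hzpos : 0 < ‖z‖ := lt_of_le_of_lt hR hz
    have hrho : rho R z = ((R / ‖z‖ : ℝ) : ℂ) * z := by
      unfold rho
      rw [max_eq_right hz.le]
    rw [hrho]
    set t : ℝ := R / ‖z‖ with ht
    have htz : t * ‖z‖ = R := div_mul_cancel₀ R hzpos.ne'
    have ht0 : 0 ≤ t := div_nonneg hR hzpos.le
    have ht1 : t ≤ 1 := (div_le_one hzpos).2 hz.le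
    have hin : (w * (starRingEnd ℂ) z).re ≤ R * ‖z‖ := by
      calc (w * (starRingEnd ℂ) z).re ≤ ‖w * (starRingEnd ℂ) z‖ := Complex.re_le_norm _
        _ = ‖w‖ * ‖z‖ := by rw [norm_mul, RCLike.norm_conj]
        _ ≤ R * ‖z‖ := mul_le_mul_of_nonneg_right hw hzpos.le
    have hre : (w * (starRingEnd ℂ) z).re = w.re * z.re + w.im * z.im := by
      simp [Complex.mul_re]
    rw [hre] at hin
    have hnz : ‖z‖ ^ 2 = z.re * z.re + z.im * z.im := by
      rw [← Complex.normSq_eq_norm_sq, Complex.normSq_apply]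
    have e1 : ‖w - (t : ℂ) * z‖ ^ 2 = (w.re - t * z.re) * (w.re - t * z.re)
        + (w.im - t * z.im) * (w.im - t * z.im) := by
      rw [← Complex.normSq_eq_norm_sq, Complex.normSq_apply]
      simp
    have e2 : ‖w - z‖ ^ 2 = (w.re - z.re) * (w.re - z.re)
        + (w.im - z.im) * (w.im - z.im) := by
      rw [← Complex.normSq_eq_norm_sq, Complex.normSq_apply]
      simp
    have key : ‖w - (t : ℂ) * z‖ ^ 2 ≤ ‖w - z‖ ^ 2 := by
      have hd : ‖w - z‖ ^ 2 - ‖w - (t : ℂ) * z‖ ^ 2
          = (1 - t) * ((1 + t) * ‖z‖ ^ 2 - 2 * (w.re * z.re + w.im * z.im)) := by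
        rw [e1, e2, hnz]
        ring
      have h3 : 0 ≤ (1 + t) * ‖z‖ ^ 2 - 2 * (w.re * z.re + w.im * z.im) := by
        have h4 : (1 + t) * ‖z‖ ^ 2 = ‖z‖ ^ 2 + R * ‖z‖ := by
          rw [← htz]
          ring
        rw [h4]
        nlinarith
      have h5 : 0 ≤ (1 - t) * ((1 + t) * ‖z‖ ^ 2 - 2 * (w.re * z.re + w.im * z.im)) :=
        mul_nonneg (by linarith) h3
      linarith
    exact (sq_le_sq₀ (norm_nonneg _) (norm_nonneg _)).1 key

/-! ### The group -/

/-- The group: the multiplicative form of the Euclidean space. -/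
abbrev GG (J : ℕ) : Type := Multiplicative (EuclideanSpace ℝ (Fin J))

/-- The charts of the group. -/
@[instance_reducible]
noncomputable def chG (J : ℕ) : ChartedSpace (EuclideanSpace ℝ (Fin J)) (GG J) :=
  inferInstanceAs (ChartedSpace (EuclideanSpace ℝ (Fin J)) (EuclideanSpace ℝ (Fin J)))

theorem lieG (J : ℕ) : @LieGroup ℝ _ (EuclideanSpace ℝ (Fin J)) _ (EuclideanSpace ℝ (Fin J)) _ _
    (𝓡 J) ∞ (GG J) _ _ (chG J) := by
  have h : LieAddGroup (𝓡 J) ∞ (EuclideanSpace ℝ (Fin J)) := inferInstance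
  let _ := chG J
  exact
    { toIsManifold := h.toIsManifold
      contMDiff_mul := h.contMDiff_add
      contMDiff_inv := h.contMDiff_neg }

/-- The integer points. -/
def lat (J : ℕ) : AddSubgroup (EuclideanSpace ℝ (Fin J)) where
  carrier := {x | ∀ j, ∃ n : ℤ, x j = n}
  zero_mem' := fun j => ⟨0, by simp⟩
  add_mem' := by
    intro x y hx hy j
    obtain ⟨n, hn⟩ := hx j
    obtain ⟨k, hk⟩ := hy j
    exact ⟨n + k, by rw [PiLp.add_apply, hn, hk]; push_cast; ring⟩
  neg_mem' := by
    intro x hx j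
    obtain ⟨n, hn⟩ := hx j
    exact ⟨-n, by rw [PiLp.neg_apply, hn]; push_cast; ring⟩

theorem mem_lat {J : ℕ} {x : EuclideanSpace ℝ (Fin J)} : x ∈ lat J ↔ ∀ j, ∃ n : ℤ, x j = n :=
  Iff.rfl

/-- The lattice in the group. -/
def Gam (J : ℕ) : Subgroup (GG J) := AddSubgroup.toSubgroup (lat J)

theorem mem_Gam {J : ℕ} {x : GG J} : x ∈ Gam J ↔ ∀ j, ∃ n : ℤ, (Multiplicative.toAdd x) j = n :=
  Iff.rfl

theorem discr (J : ℕ) : DiscreteTopology (Gam J) := by
  refine discreteTopology_of_isOpen_singleton_one ?_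
  have hop : IsOpen {x : GG J | ∀ j, |(Multiplicative.toAdd x) j| < 1} := by
    have : {x : GG J | ∀ j, |(Multiplicative.toAdd x) j| < 1}
        = ⋂ j, {x : GG J | |(Multiplicative.toAdd x) j| < 1} := by
      ext x
      simp
    rw [this]
    refine isOpen_iInter_of_finite fun j => ?_
    refine isOpen_lt ?_ continuous_const
    refine continuous_abs.comp ?_
    have h1 : Continuous fun y : EuclideanSpace ℝ (Fin J) => y j :=
      (EuclideanSpace.proj (𝕜 := ℝ) j).continuous
    exact h1.comp continuous_toAdd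
  have heq : ({1} : Set (Gam J)) = Subtype.val ⁻¹' {x : GG J | ∀ j, |(Multiplicative.toAdd x) j| < 1} := by
    ext x
    constructor
    · intro hx
      rw [Set.mem_singleton_iff] at hx
      subst hx
      intro j
      simp
    · intro hx
      rw [Set.mem_singleton_iff]
      apply Subtype.ext
      have hx2 : ∀ j, |(Multiplicative.toAdd (x : GG J)) j| < 1 := hx
      have h0 : Multiplicative.toAdd (x : GG J) = 0 := by
        ext j
        obtain ⟨n, hn⟩ := mem_Gam.1 x.2 j
        have h1 := hx2 j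
        rw [hn] at h1 ⊢
        have h1' : |(n : ℝ)| < 1 := h1
        have h2 : |n| < 1 := by exact_mod_cast h1'
        have h3 : n = 0 := Int.abs_lt_one_iff.1 h2
        rw [h3]
        simp
      exact h0
  rw [heq]
  exact hop.preimage continuous_subtype_val

theorem comp (J : ℕ) : CompactSpace (GG J ⧸ Gam J) := by
  let F : (Fin J → ℝ) → GG J ⧸ Gam J := fun y =>
    ((Multiplicative.ofAdd ((EuclideanSpace.equiv (Fin J) ℝ).symm y) : GG J) : GG J ⧸ Gam J)
  have hF : Continuous F := by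
    refine (QuotientGroup.continuous_mk).comp ?_
    refine continuous_ofAdd.comp ?_
    exact (EuclideanSpace.equiv (Fin J) ℝ).symm.continuous
  have hc : IsCompact (Set.pi Set.univ (fun _ : Fin J => Set.Icc (0 : ℝ) 1)) :=
    isCompact_univ_pi fun _ => isCompact_Icc
  have hi := hc.image hF
  refine ⟨?_⟩
  have hu : (Set.univ : Set (GG J ⧸ Gam J)) = F '' (Set.pi Set.univ (fun _ : Fin J => Set.Icc (0 : ℝ) 1)) := by
    symm
    rw [Set.eq_univ_iff_forall]
    intro q
    induction q using QuotientGroup.induction_on with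
    | H x =>
      refine ⟨fun j => Int.fract ((Multiplicative.toAdd x) j), ?_, ?_⟩
      · intro j _
        exact ⟨Int.fract_nonneg _, (Int.fract_lt_one _).le⟩
      · change ((Multiplicative.ofAdd _ : GG J) : GG J ⧸ Gam J) = _
        rw [QuotientGroup.eq]
        rw [mem_Gam]
        intro j
        refine ⟨⌊(Multiplicative.toAdd x) j⌋, ?_⟩
        rw [toAdd_mul, toAdd_inv, toAdd_ofAdd, PiLp.add_apply, PiLp.neg_apply]
        have : ((EuclideanSpace.equiv (Fin J) ℝ).symm
            (fun j => Int.fract ((Multiplicative.toAdd x) j))) j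
            = Int.fract ((Multiplicative.toAdd x) j) := rfl
        rw [this]
        have h2 := Int.fract_add_floor ((Multiplicative.toAdd x) j)
        linarith
  rw [hu]
  exact hi

/-- The trigonometric polynomial. -/
noncomputable def trig {J : ℕ} (c : Fin J → ℂ) (x : EuclideanSpace ℝ (Fin J)) : ℂ :=
  ∑ j, c j * Complex.exp (((2 * Real.pi * x j : ℝ) : ℂ) * Complex.I)

theorem continuous_trig {J : ℕ} (c : Fin J → ℂ) : Continuous (trig c) := by
  unfold trig
  refine continuous_finsetSum _ fun j _ => ?_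
  refine continuous_const.mul ?_
  refine Complex.continuous_exp.comp ?_
  refine Continuous.mul ?_ continuous_const
  refine Complex.continuous_ofReal.comp ?_
  refine continuous_const.mul ?_
  exact (EuclideanSpace.proj (𝕜 := ℝ) j).continuous

theorem trig_add_lat {J : ℕ} (c : Fin J → ℂ) (x y : EuclideanSpace ℝ (Fin J)) (hy : y ∈ lat J) :
    trig c (x + y) = trig c x := by
  unfold trig
  refine Finset.sum_congr rfl fun j _ => ?_
  obtain ⟨n, hn⟩ := mem_lat.1 hy j
  congr 1
  rw [PiLp.add_apply, hn]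
  have h1 : (((2 * Real.pi * (x j + n) : ℝ) : ℂ) * Complex.I)
      = (((2 * Real.pi * x j : ℝ) : ℂ) * Complex.I) + n * (2 * Real.pi * Complex.I) := by
    push_cast
    ring
  rw [h1]
  exact Complex.exp_periodic.int_mul n _

theorem exp_arg {z : ℂ} (hz : ‖z‖ = 1) :
    Complex.exp (((2 * Real.pi * (Complex.arg z / (2 * Real.pi)) : ℝ) : ℂ) * Complex.I) = z := by
  have h1 : 2 * Real.pi * (Complex.arg z / (2 * Real.pi)) = Complex.arg z := by
    field_simp
  rw [h1]
  have h2 := Complex.norm_mul_exp_arg_mul_I z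
  rw [hz] at h2
  simpa using h2

theorem exp_pow {z : ℂ} (hz : ‖z‖ = 1) (m : ℕ) :
    Complex.exp (((2 * Real.pi * (m * (Complex.arg z / (2 * Real.pi))) : ℝ) : ℂ) * Complex.I)
      = z ^ m := by
  have h1 : (((2 * Real.pi * (m * (Complex.arg z / (2 * Real.pi))) : ℝ) : ℂ) * Complex.I)
      = m * (((2 * Real.pi * (Complex.arg z / (2 * Real.pi)) : ℝ) : ℂ) * Complex.I) := by
    push_cast
    ring
  rw [h1, Complex.exp_nat_mul, exp_arg hz]

/-- The point with the arguments of the `u j` as coordinates. -/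
noncomputable def pt {J : ℕ} (u : Fin J → ℂ) : EuclideanSpace ℝ (Fin J) :=
  (EuclideanSpace.equiv (Fin J) ℝ).symm (fun j => Complex.arg (u j) / (2 * Real.pi))

theorem pt_apply {J : ℕ} (u : Fin J → ℂ) (j : Fin J) :
    pt u j = Complex.arg (u j) / (2 * Real.pi) := rfl

theorem trig_pt {J : ℕ} (c u v : Fin J → ℂ) (hu : ∀ j, ‖u j‖ = 1) (hv : ∀ j, ‖v j‖ = 1)
    (m n : ℕ) : trig c (m • pt u + n • pt v) = ∑ j, c j * u j ^ m * v j ^ n := by
  unfold trig
  refine Finset.sum_congr rfl fun j _ => ?_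
  have h1 : (m • pt u + n • pt v) j
      = m * (Complex.arg (u j) / (2 * Real.pi)) + n * (Complex.arg (v j) / (2 * Real.pi)) := by
    rw [PiLp.add_apply, PiLp.smul_apply, PiLp.smul_apply, pt_apply, pt_apply, nsmul_eq_mul,
      nsmul_eq_mul]
  rw [h1, mul_assoc (c j) (u j ^ m) (v j ^ n)]
  congr 1
  have h2 : (((2 * Real.pi * (m * (Complex.arg (u j) / (2 * Real.pi))
      + n * (Complex.arg (v j) / (2 * Real.pi))) : ℝ) : ℂ) * Complex.I)
      = (((2 * Real.pi * (m * (Complex.arg (u j) / (2 * Real.pi))) : ℝ) : ℂ) * Complex.I)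
      + (((2 * Real.pi * (n * (Complex.arg (v j) / (2 * Real.pi))) : ℝ) : ℂ) * Complex.I) := by
    push_cast
    ring
  rw [h2, Complex.exp_add, exp_pow (hu j), exp_pow (hv j)]

/-- The function on the nilmanifold. -/
noncomputable def Psi {J : ℕ} (c : Fin J → ℂ) (R : ℝ) : GG J ⧸ Gam J → ℂ :=
  Quotient.lift (fun x : GG J => rho R (trig c (Multiplicative.toAdd x))) (by
    intro x y hxy
    have h1 : x⁻¹ * y ∈ Gam J := QuotientGroup.leftRel_apply.1 hxy
    have h2 : Multiplicative.toAdd y = Multiplicative.toAdd x + Multiplicative.toAdd (x⁻¹ * y) := by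
      rw [toAdd_mul, toAdd_inv]
      abel
    have h3 : Multiplicative.toAdd (x⁻¹ * y) ∈ lat J := h1
    change rho R (trig c (Multiplicative.toAdd x)) = rho R (trig c (Multiplicative.toAdd y))
    rw [h2, trig_add_lat c _ _ h3])

theorem continuous_Psi {J : ℕ} (c : Fin J → ℂ) {R : ℝ} (hR : 0 ≤ R) : Continuous (Psi c R) := by
  refine Continuous.quotient_lift ?_ _
  exact (continuous_rho hR).comp ((continuous_trig c).comp continuous_toAdd)

theorem Psi_mk {J : ℕ} (c : Fin J → ℂ) (R : ℝ) (x : GG J) :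
    Psi c R (x • ((1 : GG J) : GG J ⧸ Gam J)) = rho R (trig c (Multiplicative.toAdd x)) := by
  have h1 : x • ((1 : GG J) : GG J ⧸ Gam J) = ((x : GG J) : GG J ⧸ Gam J) := by
    rw [MulAction.Quotient.smul_coe, smul_eq_mul, mul_one]
  rw [h1]
  rfl

theorem lcs (J : ℕ) : Subgroup.lowerCentralSeries (⊤ : Subgroup (GG J)) 1 = ⊥ := by
  rw [Subgroup.top_lowerCentralSeries_one]
  rw [eq_bot_iff]
  exact Subgroup.commutator_le.2 (fun a _ b _ => by
    rw [Subgroup.mem_bot, commutatorElement_def]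
    rw [mul_comm a b]
    group)

theorem prf : S_NIL := by
  intro J c u v R hR hu hv
  refine ⟨fun p => rho R (∑ j, c j * u j ^ (p.1 : ℕ) * v j ^ (p.2 : ℕ)), ?_, ?_, ?_⟩
  · refine ⟨J, GG J, inferInstance, chG J, inferInstance, lieG J, Gam J, Psi c R,
      Multiplicative.ofAdd (pt u), Multiplicative.ofAdd (pt v), lcs J, discr J, comp J,
      continuous_Psi c hR, Commute.all _ _, ?_⟩
    intro m n
    change rho R (∑ j, c j * u j ^ (m : ℕ) * v j ^ (n : ℕ)) = _
    rw [Psi_mk, toAdd_mul, toAdd_pow, toAdd_pow, toAdd_ofAdd, toAdd_ofAdd, trig_pt c u v hu hv]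
  · intro p
    exact norm_rho_le hR _
  · intro p w hw
    exact norm_sub_rho_le hR w _ hw

end Pool.Agent.Work.MP_8ac988_an.EP.NNIL
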