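import Pool.Agent.Work.MP_8ac988_an.EP.Stmts

set_option autoImplicit false

open MeasureTheory Filter Topology
open scoped ENNReal

namespace Pool.Agent.Work.MP_8ac988_an.EP.NNUL

section Gen

variable {H : Type*} [NormedAddCommGroup H] [InnerProductSpace ℂ H]

/-- Rank one operator `y ↦ ⟨a, y⟩ a`. -/
noncomputable def R (a : H) : H →L[ℂ] H := (innerSL ℂ a).smulRight a

lemma R_apply (a y : H) : R a y = inner ℂ a y • a := by
  simp [R]

lemma R_compact (a : H) : IsCompactOperator (R a) := by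
  have h1 : IsCompactOperator (innerSL ℂ a) :=
    isCompactOperator_of_locallyCompactSpace_dom (innerSL ℂ a)
  have h2 := h1.clm_comp (((1 : ℂ →L[ℂ] ℂ)).smulRight a)
  have h3 : (⇑(R a) : H → H) = ⇑(ContinuousLinearMap.smulRight (1 : ℂ →L[ℂ] ℂ) a) ∘ ⇑((innerSL ℂ) a) := by
    funext y
    simp [R]
  rw [h3]
  exact h2

/-- The averages `K_N`. -/
noncomputable def KN (U : H →ₗᵢ[ℂ] H) (x : H) (N : ℕ) : H →L[ℂ] H :=
  ((N : ℂ)⁻¹) • ∑ n ∈ Finset.range N, R (U^[n] x)

lemma KN_apply (U : H →ₗᵢ[ℂ] H) (x : H) (N : ℕ) (y : H) :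
    KN U x N y = ((N : ℂ)⁻¹) • ∑ n ∈ Finset.range N, inner ℂ (U^[n] x) y • (U^[n] x) := by
  simp [KN, R_apply]

lemma KN_compact (U : H →ₗᵢ[ℂ] H) (x : H) (N : ℕ) : IsCompactOperator (KN U x N) := by
  have h : ∀ s : Finset ℕ, IsCompactOperator (∑ n ∈ s, R (U^[n] x) : H →L[ℂ] H) := by
    intro s
    induction s using Finset.induction_on with
    | empty => simpa using (isCompactOperator_zero : IsCompactOperator (0 : H → H))
    | insert a s ha ih =>
      rw [Finset.sum_insert ha]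
      exact (R_compact (U^[a] x)).add ih
  exact (h _).smul _

lemma KN_symm (U : H →ₗᵢ[ℂ] H) (x : H) (N : ℕ) (y z : H) :
    inner ℂ (KN U x N y) z = inner ℂ y (KN U x N z) := by
  rw [KN_apply, KN_apply, inner_smul_left, inner_smul_right, sum_inner, inner_sum]
  simp only [inner_smul_left, inner_smul_right, inner_conj_symm]
  congr 1
  · simp
  · refine Finset.sum_congr rfl fun n _ => ?_
    ring

/-- Quadratic form. -/
lemma KN_quad (U : H →ₗᵢ[ℂ] H) (x : H) (N : ℕ) (y : H) :
    (N : ℂ) * inner ℂ y (KN U x N y) =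
      ((∑ n ∈ Finset.range N, ‖(inner ℂ (U^[n] x) y : ℂ)‖ ^ 2 : ℝ) : ℂ) := by
  rcases Nat.eq_zero_or_pos N with h | h
  · subst h; simp
  have hN : (N : ℂ) ≠ 0 := by exact_mod_cast h.ne'
  rw [KN_apply, inner_smul_right, inner_sum, ← mul_assoc, mul_inv_cancel₀ hN, one_mul]
  push_cast
  refine Finset.sum_congr rfl fun n _ => ?_
  rw [inner_smul_right, ← inner_conj_symm y, Complex.mul_conj, Complex.normSq_eq_norm_sq]
  push_cast
  rfl

lemma iter_norm (U : H →ₗᵢ[ℂ] H) (x : H) (n : ℕ) : ‖U^[n] x‖ = ‖x‖ := by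
  induction n with
  | zero => rfl
  | succ n ih => rw [Function.iterate_succ_apply', U.norm_map, ih]

lemma iter_inner_of_eig (U : H →ₗᵢ[ℂ] H) (x v : H) (c : ℂ) (hv : v ≠ 0) (hc : U v = c • v)
    (hx : inner ℂ x v = 0) (n : ℕ) : inner ℂ (U^[n] x) v = 0 := by
  have hc1 : ‖c‖ = 1 := by
    have h := U.norm_map v
    rw [hc, norm_smul] at h
    have hv' : ‖v‖ ≠ 0 := norm_ne_zero_iff.mpr hv
    field_simp at h
    exact h
  have hc0 : c ≠ 0 := by
    intro h; rw [h] at hc1; simp at hc1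
  induction n with
  | zero => simpa using hx
  | succ n ih =>
    have h1 : inner ℂ (U (U^[n] x)) (U v) = inner ℂ (U^[n] x) v := U.inner_map_map _ _
    rw [hc, inner_smul_right, ih] at h1
    rw [Function.iterate_succ_apply']
    exact (mul_eq_zero.mp h1).resolve_left hc0

theorem gen [CompleteSpace H] (U : H →ₗᵢ[ℂ] H) (x : H)
    (hx : ∀ (v : H) (c : ℂ), U v = c • v → inner ℂ x v = 0)
    {T : Type*} [NormedAddCommGroup T] [InnerProductSpace ℂ T] [CompleteSpace T]
    (ten : H → H → T)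
    (hten : ∀ a b c d, inner ℂ (ten a b) (ten c d) = inner ℂ a c * inner ℂ d b)
    (W : T →ₗᵢ[ℂ] T) (hW : ∀ a b, W (ten a b) = ten (U a) (U b)) :
    ∀ ε : ℝ, 0 < ε → ∃ L₀ : ℕ, ∀ L : ℕ, L₀ ≤ L → ∀ y : H,
      ∑ i ∈ Finset.range L, ‖(inner ℂ (U^[i] x) y : ℂ)‖ ^ 2 ≤ ε * L * ‖y‖ ^ 2 := by
  -- kernel averages
  set kx : T := ten x x with hkx
  set k : ℕ → T := fun N => birkhoffAverage ℂ (W.toContinuousLinearMap) _root_.id N kx with hk
  have hWit : ∀ n, (W.toContinuousLinearMap)^[n] kx = ten (U^[n] x) (U^[n] x) := by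
    intro n
    induction n with
    | zero => rfl
    | succ n ih =>
      rw [Function.iterate_succ_apply', ih, Function.iterate_succ_apply']
      exact hW _ _
  have hkval : ∀ N, k N = ((N : ℂ)⁻¹) • ∑ n ∈ Finset.range N, ten (U^[n] x) (U^[n] x) := by
    intro N
    simp only [hk, birkhoffAverage, birkhoffSum, id]
    congr 1
    refine Finset.sum_congr rfl fun n _ => ?_
    exact hWit n
  have hconv := (W.toContinuousLinearMap).tendsto_birkhoffAverage_orthogonalProjection
    (W.norm_toContinuousLinearMap_le) kx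
  have hCauchy : CauchySeq k := hconv.cauchySeq
  have htn : ∀ a b, ‖ten a b‖ = ‖a‖ * ‖b‖ := by
    intro a b
    have h := hten a b a b
    rw [inner_self_eq_norm_sq_to_K, inner_self_eq_norm_sq_to_K, inner_self_eq_norm_sq_to_K] at h
    have h2 : ‖ten a b‖ ^ 2 = (‖a‖ * ‖b‖) ^ 2 := by
      have : ((‖ten a b‖ ^ 2 : ℝ) : ℂ) = (((‖a‖ * ‖b‖) ^ 2 : ℝ) : ℂ) := by
        push_cast
        rw [mul_pow]
        simpa using h
      exact_mod_cast this
    exact (sq_eq_sq₀ (norm_nonneg _) (by positivity)).mp h2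
  have hKk : ∀ N y z, inner ℂ z (KN U x N y) = inner ℂ (ten z y) (k N) := by
    intro N y z
    rw [hkval, KN_apply, inner_smul_right, inner_smul_right, inner_sum, inner_sum]
    congr 1
    refine Finset.sum_congr rfl fun n _ => ?_
    rw [hten, inner_smul_right]
    ring
  have hdiff : ∀ N M, ‖KN U x N - KN U x M‖ ≤ ‖k N - k M‖ := by
    intro N M
    refine ContinuousLinearMap.opNorm_le_bound _ (norm_nonneg _) fun y => ?_
    set w := (KN U x N - KN U x M) y with hw
    have h1 : inner ℂ w w = inner ℂ (ten w y) (k N - k M) := by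
      conv_lhs => rw [hw, sub_apply, inner_sub_right, hKk, hKk]
      rw [inner_sub_right, ← sub_apply, ← hw]
    have h2 : ‖w‖ ^ 2 ≤ (‖w‖ * ‖y‖) * ‖k N - k M‖ := by
      have h3 : ‖(inner ℂ w w : ℂ)‖ = ‖w‖ ^ 2 := by
        rw [inner_self_eq_norm_sq_to_K]; simp
      rw [← h3, h1, ← htn]
      exact norm_inner_le_norm _ _
    rcases eq_or_lt_of_le (norm_nonneg w) with h0 | h0
    · rw [← h0]; positivity
    · have : ‖w‖ * ‖w‖ ≤ ‖w‖ * (‖k N - k M‖ * ‖y‖) := by nlinarith
      exact le_of_mul_le_mul_left this h0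
  have hKC : CauchySeq (KN U x) := by
    rw [Metric.cauchySeq_iff] at hCauchy ⊢
    intro ε hε
    obtain ⟨N, hN⟩ := hCauchy ε hε
    refine ⟨N, fun m hm n hn => ?_⟩
    have := hN m hm n hn
    rw [dist_eq_norm] at this ⊢
    exact (hdiff m n).trans_lt this
  obtain ⟨K, hK⟩ := cauchySeq_tendsto_of_complete hKC
  have hKpt : ∀ y, Tendsto (fun N => KN U x N y) atTop (𝓝 (K y)) := by
    intro y
    exact ((ContinuousLinearMap.apply ℂ H y).continuous.tendsto K).comp hK
  have hKcomp : IsCompactOperator K :=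
    isCompactOperator_of_tendsto hK (Eventually.of_forall fun N => KN_compact U x N)
  have hKsymm : K.IsSymmetric := by
    intro y z
    have h1 : Tendsto (fun N => inner ℂ (KN U x N y) z) atTop (𝓝 (inner ℂ (K y) z)) :=
      (hKpt y).inner tendsto_const_nhds
    have h2 : Tendsto (fun N => inner ℂ y (KN U x N z)) atTop (𝓝 (inner ℂ y (K z))) :=
      tendsto_const_nhds.inner (hKpt z)
    have h3 : (fun N => inner ℂ (KN U x N y) z) = fun N => inner ℂ y (KN U x N z) := by
      funext N; exact KN_symm U x N y z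
    rw [h3] at h1
    exact tendsto_nhds_unique h1 h2
  -- commutation
  have hcomm : ∀ y, K (U y) = U (K y) := by
    intro y
    have hid : ∀ N : ℕ, KN U x N (U y) - U (KN U x N y) =
        ((N : ℂ)⁻¹) • (inner ℂ x (U y) • x - inner ℂ (U^[N] x) (U y) • (U^[N] x)) := by
      intro N
      rw [KN_apply, KN_apply, map_smul, map_sum, ← smul_sub]
      congr 1
      have e1 : ∑ n ∈ Finset.range N, U (inner ℂ (U^[n] x) y • (U^[n] x)) =
          ∑ n ∈ Finset.range N, inner ℂ (U^[n+1] x) (U y) • (U^[n+1] x) := by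
        refine Finset.sum_congr rfl fun n _ => ?_
        rw [map_smul, Function.iterate_succ_apply', U.inner_map_map]
      rw [e1]
      have e2 := Finset.sum_range_succ' (fun n => inner ℂ (U^[n] x) (U y) • (U^[n] x)) N
      have e3 := Finset.sum_range_succ (fun n => inner ℂ (U^[n] x) (U y) • (U^[n] x)) N
      rw [e2] at e3
      simp only [Function.iterate_zero, id] at e3
      rw [sub_eq_sub_iff_add_eq_add, ← e3, add_comm]
    have hlim0 : Tendsto (fun N : ℕ => KN U x N (U y) - U (KN U x N y)) atTop (𝓝 0) := by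
      rw [tendsto_zero_iff_norm_tendsto_zero]
      have hb : ∀ N : ℕ, ‖KN U x N (U y) - U (KN U x N y)‖ ≤
          (N : ℝ)⁻¹ * (‖x‖ * ‖y‖ * ‖x‖ + ‖x‖ * ‖y‖ * ‖x‖) := by
        intro N
        rw [hid N, norm_smul]
        have h0 : ‖((N : ℂ)⁻¹)‖ = (N : ℝ)⁻¹ := by simp
        rw [h0]
        refine mul_le_mul_of_nonneg_left ?_ (by positivity)
        refine (norm_sub_le _ _).trans (add_le_add ?_ ?_)
        · rw [norm_smul]
          refine mul_le_mul_of_nonneg_right ?_ (norm_nonneg _)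
          have := norm_inner_le_norm (𝕜 := ℂ) x (U y)
          rwa [U.norm_map] at this
        · rw [norm_smul]
          have := norm_inner_le_norm (𝕜 := ℂ) (U^[N] x) (U y)
          rw [U.norm_map, iter_norm] at this
          rw [iter_norm]
          exact mul_le_mul_of_nonneg_right this (norm_nonneg _)
      refine squeeze_zero (fun _ => norm_nonneg _) hb ?_
      have := (tendsto_inv_atTop_nhds_zero_nat (𝕜 := ℝ)).mul_const
        (‖x‖ * ‖y‖ * ‖x‖ + ‖x‖ * ‖y‖ * ‖x‖)
      simpa using this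
    have h1 : Tendsto (fun N : ℕ => KN U x N (U y) - U (KN U x N y)) atTop
        (𝓝 (K (U y) - U (K y))) :=
      (hKpt (U y)).sub ((U.continuous.tendsto _).comp (hKpt y))
    exact sub_eq_zero.mp (tendsto_nhds_unique h1 hlim0)
  -- K = 0
  have hK0 : K = 0 := by
    rw [← ContinuousLinearMap.eq_zero_of_forall_hasEigenvalue_eq_zero hKcomp hKsymm]
    intro t ht
    by_contra ht0
    have hfd := ContinuousLinearMap.finite_dimensional_eigenspace hKcomp t ht0
    set E := Module.End.eigenspace (K : Module.End ℂ H) t with hE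
    have hinv : ∀ v ∈ E, U.toLinearMap v ∈ E := by
      intro v hv
      rw [hE, Module.End.mem_eigenspace_iff] at hv ⊢
      have hv' : K v = t • v := hv
      change K (U v) = t • U v
      rw [hcomm, hv', map_smul]
    let UE : Module.End ℂ E := U.toLinearMap.restrict hinv
    have hne : Nontrivial E := by
      rw [Submodule.nontrivial_iff_ne_bot]
      exact ht
    obtain ⟨c, hc⟩ := Module.End.exists_eigenvalue UE
    obtain ⟨v, hv⟩ := hc.exists_hasEigenvector
    have hv1 : UE v = c • v := hv.apply_eq_smul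
    have hv0 : (v : H) ≠ 0 := by
      intro h
      exact hv.2 (Subtype.ext h)
    have hv2 : U (v : H) = c • (v : H) := by
      have := congrArg Subtype.val hv1
      simpa [UE] using this
    have hxv := hx (v : H) c hv2
    have hKv : K (v : H) = 0 := by
      have h3 : ∀ N, KN U x N (v : H) = 0 := by
        intro N
        rw [KN_apply, Finset.sum_eq_zero, smul_zero]
        intro n _
        rw [iter_inner_of_eig U x v c hv0 hv2 hxv n, zero_smul]
      have h4 := hKpt (v : H)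
      simp only [h3] at h4
      exact (tendsto_nhds_unique h4 tendsto_const_nhds)
    have hv3 : K (v : H) = t • (v : H) := by
      exact Module.End.mem_eigenspace_iff.mp v.2
    rw [hKv] at hv3
    rcases smul_eq_zero.mp hv3.symm with h | h
    · exact ht0 h
    · exact hv0 h
  rw [hK0] at hK
  intro ε hε
  have hnorm := (tendsto_zero_iff_norm_tendsto_zero.mp hK)
  have hev := hnorm.eventually (gt_mem_nhds hε)
  obtain ⟨L₀, hL₀⟩ := eventually_atTop.mp hev
  refine ⟨L₀, fun L hL y => ?_⟩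
  have hKL : ‖KN U x L‖ < ε := hL₀ L hL
  have hq := KN_quad U x L y
  have hnn : (0 : ℝ) ≤ ∑ n ∈ Finset.range L, ‖(inner ℂ (U^[n] x) y : ℂ)‖ ^ 2 := by positivity
  have h1 : ∑ n ∈ Finset.range L, ‖(inner ℂ (U^[n] x) y : ℂ)‖ ^ 2 =
      ‖(L : ℂ) * inner ℂ y (KN U x L y)‖ := by
    rw [hq, Complex.norm_real, Real.norm_of_nonneg hnn]
  rw [h1, norm_mul]
  have h2 : ‖(inner ℂ y (KN U x L y) : ℂ)‖ ≤ ‖y‖ * (ε * ‖y‖) := by
    refine (norm_inner_le_norm _ _).trans ?_
    refine mul_le_mul_of_nonneg_left ?_ (norm_nonneg _)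
    refine ((KN U x L).le_opNorm y).trans ?_
    exact mul_le_mul_of_nonneg_right hKL.le (norm_nonneg _)
  have h3 : ‖(L : ℂ)‖ = (L : ℝ) := by simp
  rw [h3]
  calc (L : ℝ) * ‖(inner ℂ y (KN U x L y) : ℂ)‖ ≤ (L : ℝ) * (‖y‖ * (ε * ‖y‖)) :=
        mul_le_mul_of_nonneg_left h2 (by positivity)
    _ = ε * L * ‖y‖ ^ 2 := by ring

end Gen

section L2

variable {X : Type} [MeasurableSpace X] {μ : Measure X} [IsProbabilityMeasure μ]

/-- The kernel function. -/
noncomputable def tf (a b : Lp ℂ 2 μ) : X × X → ℂ := fun p => a p.1 * (starRingEnd ℂ) (b p.2)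

omit [IsProbabilityMeasure μ] in
lemma tf_memLp (a b : Lp ℂ 2 μ) : MemLp (tf a b) 2 (μ.prod μ) := by
  have ha := Lp.memLp a
  have hb := Lp.memLp b
  have hm : AEStronglyMeasurable (tf a b) (μ.prod μ) := by
    refine (ha.1.comp_fst).mul ?_
    exact (RCLike.continuous_conj.comp_aestronglyMeasurable hb.1.comp_snd)
  rw [memLp_two_iff_integrable_sq_norm hm]
  have h1 := (memLp_two_iff_integrable_sq_norm ha.1).mp ha
  have h2 := (memLp_two_iff_integrable_sq_norm hb.1).mp hb
  have h3 := h1.mul_prod h2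
  refine h3.congr (Eventually.of_forall fun p => ?_)
  simp only [tf, norm_mul, RCLike.norm_conj]
  ring

/-- The kernel as an element of `L²`. -/
noncomputable def ten (a b : Lp ℂ 2 μ) : Lp ℂ 2 (μ.prod μ) := (tf_memLp a b).toLp

lemma ten_inner (a b c d : Lp ℂ 2 μ) :
    inner ℂ (ten a b) (ten c d) = (inner ℂ a c * inner ℂ d b : ℂ) := by
  rw [L2.inner_def, L2.inner_def, L2.inner_def, ← integral_prod_mul]
  refine integral_congr_ae ?_
  filter_upwards [(tf_memLp a b).coeFn_toLp, (tf_memLp c d).coeFn_toLp] with p h1 h2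
  have h1' : (ten a b : X × X → ℂ) p = tf a b p := h1
  have h2' : (ten c d : X × X → ℂ) p = tf c d p := h2
  rw [h1', h2']
  simp only [tf, RCLike.inner_apply, map_mul, RCLike.conj_conj]
  ring

lemma ten_koop (S : X → X) (hS : MeasurePreserving S μ μ) (a b : Lp ℂ 2 μ) :
    koop (μ := μ.prod μ) (Prod.map S S) (hS.prod hS) (ten a b) = ten (koop S hS a) (koop S hS b) := by
  apply Lp.ext
  have hq : MeasurePreserving (Prod.map S S) (μ.prod μ) (μ.prod μ) := hS.prod hS
  have e1 := Lp.coeFn_compMeasurePreserving (ten a b) hq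
  have e2 : (ten a b : X × X → ℂ) ∘ (Prod.map S S) =ᵐ[μ.prod μ] (tf a b) ∘ (Prod.map S S) :=
    hq.quasiMeasurePreserving.ae_eq_comp (tf_memLp a b).coeFn_toLp
  have e3 := (tf_memLp (koop S hS a) (koop S hS b)).coeFn_toLp
  have ea := Lp.coeFn_compMeasurePreserving a hS
  have eb := Lp.coeFn_compMeasurePreserving b hS
  have ea' : (fun p : X × X => (koop S hS a : X → ℂ) p.1) =ᵐ[μ.prod μ] fun p => (a ∘ S) p.1 :=
    (Measure.quasiMeasurePreserving_fst (μ := μ) (ν := μ)).ae_eq_comp ea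
  have eb' : (fun p : X × X => (koop S hS b : X → ℂ) p.2) =ᵐ[μ.prod μ] fun p => (b ∘ S) p.2 :=
    (Measure.quasiMeasurePreserving_snd (μ := μ) (ν := μ)).ae_eq_comp eb
  filter_upwards [e1, e2, e3, ea', eb'] with p h1 h2 h3 h4 h5
  refine h1.trans (h2.trans ?_)
  refine Eq.trans ?_ h3.symm
  simp only [tf, Function.comp, Prod.map] at *
  rw [h4, h5]

end L2

theorem prf : S_NUL := by
  intro X _ μ _ S hS x hx
  exact gen (koop S hS) x hx ten ten_inner (koop (μ := μ.prod μ) (Prod.map S S) (hS.prod hS))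
    (ten_koop S hS)

end Pool.Agent.Work.MP_8ac988_an.EP.NNUL
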