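import Pool.Agent.Work.MP_8ac988_an.EP.Stmts

/-! MP_8ac988_an, companion theorem: assembly. -/

set_option autoImplicit false
set_option linter.unusedSectionVars false

open MeasureTheory Filter Topology
open scoped ENNReal

namespace Pool.Agent.Work.MP_8ac988_an.EP

/-! ### Trigonometric polynomials and good sequences -/

/-- trigonometric polynomials in two variables -/
def IsTrig (P : ℕ+ × ℕ+ → ℂ) : Prop :=
  ∃ (J : ℕ) (c u v : Fin J → ℂ), (∀ j, ‖u j‖ = 1) ∧ (∀ j, ‖v j‖ = 1) ∧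
    ∀ p, P p = ∑ j, c j * u j ^ (p.1 : ℕ) * v j ^ (p.2 : ℕ)

theorem isTrig_zero : IsTrig fun _ => 0 :=
  ⟨0, fun _ => 0, fun _ => 0, fun _ => 0, fun j => j.elim0, fun j => j.elim0, fun _ => by simp⟩

theorem isTrig_single (c u v : ℂ) (hu : ‖u‖ = 1) (hv : ‖v‖ = 1) :
    IsTrig fun p => c * u ^ (p.1 : ℕ) * v ^ (p.2 : ℕ) :=
  ⟨1, fun _ => c, fun _ => u, fun _ => v, fun _ => hu, fun _ => hv, fun _ => by simp⟩

theorem IsTrig.add {P Q : ℕ+ × ℕ+ → ℂ} (hP : IsTrig P) (hQ : IsTrig Q) :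
    IsTrig fun p => P p + Q p := by
  obtain ⟨J, c, u, v, hu, hv, h⟩ := hP
  obtain ⟨K, c', u', v', hu', hv', h'⟩ := hQ
  refine ⟨J + K, Fin.append c c', Fin.append u u', Fin.append v v', ?_, ?_, ?_⟩
  · intro j
    refine Fin.addCases (fun i => ?_) (fun i => ?_) j
    · rw [Fin.append_left]; exact hu i
    · rw [Fin.append_right]; exact hu' i
  · intro j
    refine Fin.addCases (fun i => ?_) (fun i => ?_) j
    · rw [Fin.append_left]; exact hv i
    · rw [Fin.append_right]; exact hv' i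
  · intro p
    change P p + Q p = _
    rw [Fin.sum_univ_add, h, h']
    simp only [Fin.append_left, Fin.append_right]

theorem isTrig_sum {ι : Type} (s : Finset ι) (P : ι → ℕ+ × ℕ+ → ℂ) (h : ∀ i, IsTrig (P i)) :
    IsTrig fun p => ∑ i ∈ s, P i p := by
  classical
  induction s using Finset.induction_on with
  | empty => simpa using isTrig_zero
  | insert a s ha ih =>
    have := (h a).add ih
    simpa only [Finset.sum_insert ha] using this

/-- windows in the first variable -/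
def Win (r : ℕ+ × ℕ+ → ℂ) : Prop :=
  ∀ η : ℝ, 0 < η → ∃ L₀ : ℕ, ∀ L : ℕ, L₀ ≤ L → ∀ m n : ℕ+,
    ∑ i ∈ Finset.range L, ‖r (psh m i, n)‖ ^ 2 ≤ η * L

theorem win_zero : Win fun _ => 0 := by
  intro η hη
  refine ⟨0, fun L _ m n => ?_⟩
  simp only [norm_zero, ne_eq, OfNat.ofNat_ne_zero, not_false_eq_true, zero_pow,
    Finset.sum_const_zero]
  positivity

theorem Win.add {r s : ℕ+ × ℕ+ → ℂ} (hr : Win r) (hs : Win s) : Win fun p => r p + s p := by
  intro η hη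
  obtain ⟨L₁, h1⟩ := hr (η / 4) (by positivity)
  obtain ⟨L₂, h2⟩ := hs (η / 4) (by positivity)
  refine ⟨max L₁ L₂, fun L hL m n => ?_⟩
  have e1 := h1 L ((le_max_left _ _).trans hL) m n
  have e2 := h2 L ((le_max_right _ _).trans hL) m n
  calc ∑ i ∈ Finset.range L, ‖r (psh m i, n) + s (psh m i, n)‖ ^ 2
      ≤ ∑ i ∈ Finset.range L, (2 * ‖r (psh m i, n)‖ ^ 2 + 2 * ‖s (psh m i, n)‖ ^ 2) := by
        refine Finset.sum_le_sum fun i _ => ?_
        have h3 := norm_add_le (r (psh m i, n)) (s (psh m i, n))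
        have h4 := norm_nonneg (r (psh m i, n) + s (psh m i, n))
        nlinarith [sq_nonneg (‖r (psh m i, n)‖ - ‖s (psh m i, n)‖)]
    _ = 2 * ∑ i ∈ Finset.range L, ‖r (psh m i, n)‖ ^ 2 +
          2 * ∑ i ∈ Finset.range L, ‖s (psh m i, n)‖ ^ 2 := by
        rw [Finset.sum_add_distrib, Finset.mul_sum, Finset.mul_sum]
    _ ≤ η * L := by linarith

/-- sums of a trigonometric polynomial, a part with small windows and a small part -/
def Good (δ : ℝ) (q : ℕ+ × ℕ+ → ℂ) : Prop :=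
  ∃ (P r s : ℕ+ × ℕ+ → ℂ) (M : ℝ), IsTrig P ∧ Win r ∧ (∀ p, ‖r p‖ ≤ M) ∧ (∀ p, ‖s p‖ ≤ δ) ∧
    ∀ p, q p = P p + r p + s p

theorem good_zero (δ : ℝ) (hδ : 0 ≤ δ) : Good δ fun _ => 0 :=
  ⟨fun _ => 0, fun _ => 0, fun _ => 0, 0, isTrig_zero, win_zero, fun _ => by simp,
    fun _ => by simpa using hδ, fun _ => by simp⟩

theorem Good.add {δ δ' : ℝ} {q q' : ℕ+ × ℕ+ → ℂ} (h : Good δ q) (h' : Good δ' q') :
    Good (δ + δ') fun p => q p + q' p := by
  obtain ⟨P, r, s, M, h1, h2, h3, h4, h5⟩ := h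
  obtain ⟨P', r', s', M', h1', h2', h3', h4', h5'⟩ := h'
  refine ⟨_, _, fun p => s p + s' p, M + M', h1.add h1', h2.add h2', fun p => ?_, fun p => ?_,
    fun p => ?_⟩
  · exact (norm_add_le _ _).trans (add_le_add (h3 p) (h3' p))
  · exact (norm_add_le _ _).trans (add_le_add (h4 p) (h4' p))
  · change q p + q' p = _
    rw [h5, h5']; ring

theorem good_sum {δ : ℝ} {ι : Type} (s : Finset ι) (q : ι → ℕ+ × ℕ+ → ℂ)
    (h : ∀ i, Good δ (q i)) : Good (s.card * δ) fun p => ∑ i ∈ s, q i p := by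
  classical
  induction s using Finset.induction_on with
  | empty => simpa using good_zero 0 le_rfl
  | insert a s ha ih =>
    have h1 := (h a).add ih
    have e : δ + s.card * δ = ((insert a s).card : ℝ) * δ := by
      rw [Finset.card_insert_of_notMem ha]; push_cast; ring
    rw [e] at h1
    simpa only [Finset.sum_insert ha] using h1

/-! ### Iterates of isometries -/

section iso

variable {H : Type} [NormedAddCommGroup H] [InnerProductSpace ℂ H] [CompleteSpace H]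
  (U : H →ₗᵢ[ℂ] H)

theorem it_eq (i : ℕ) (x : H) : (U^[i]) x = ((U.toLinearMap) ^ i) x := by
  rw [Module.End.pow_apply]
  rfl

theorem it_add (i : ℕ) (x y : H) : (U^[i]) (x + y) = (U^[i]) x + (U^[i]) y := by
  simp only [it_eq, map_add]

theorem it_sum (i : ℕ) {ι : Type} (s : Finset ι) (x : ι → H) :
    (U^[i]) (∑ j ∈ s, x j) = ∑ j ∈ s, (U^[i]) (x j) := by
  simp only [it_eq, map_sum]

theorem it_norm (i : ℕ) (x : H) : ‖(U^[i]) x‖ = ‖x‖ := by
  induction i with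
  | zero => rfl
  | succ i ih => rw [Function.iterate_succ', Function.comp, U.norm_map, ih]

theorem it_inner (i : ℕ) (x y : H) : (inner ℂ ((U^[i]) x) ((U^[i]) y) : ℂ) = inner ℂ x y := by
  induction i with
  | zero => rfl
  | succ i ih =>
    rw [Function.iterate_succ', Function.comp, Function.comp, U.inner_map_map, ih]

theorem it_eig {x : H} {c : ℂ} (h : U x = c • x) (i : ℕ) : (U^[i]) x = c ^ i • x := by
  induction i with
  | zero => simp
  | succ i ih =>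
    rw [Function.iterate_succ', Function.comp, ih, map_smul, h, smul_smul, pow_succ]

theorem norm_eig {x : H} {c : ℂ} (h : U x = c • x) (hx : x ≠ 0) : ‖c‖ = 1 := by
  have h1 := U.norm_map x
  rw [h, norm_smul] at h1
  have h2 : 0 < ‖x‖ := norm_pos_iff.2 hx
  exact mul_right_cancel₀ h2.ne' (by rw [h1, one_mul])

/-- a contraction adjoint to the iterate -/
theorem it_adj (m : ℕ) (y : H) : ∃ z : H, ‖z‖ ≤ ‖y‖ ∧
    ∀ x, (inner ℂ ((U^[m]) x) y : ℂ) = inner ℂ x z := by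
  induction m generalizing y with
  | zero => exact ⟨y, le_rfl, fun x => rfl⟩
  | succ m ih =>
    obtain ⟨z, hz, h⟩ := ih y
    set V := ContinuousLinearMap.adjoint U.toContinuousLinearMap with hV
    refine ⟨V z, ?_, fun x => ?_⟩
    · have h1 : ‖V‖ ≤ 1 := by
        rw [hV, LinearIsometryEquiv.norm_map]
        exact U.norm_toContinuousLinearMap_le
      have h2 := V.le_opNorm z
      have h3 := norm_nonneg z
      nlinarith [norm_nonneg V]
    · rw [Function.iterate_succ, Function.comp, h, hV, ContinuousLinearMap.adjoint_inner_right]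
      rfl

end iso

/-! ### Joint eigenvectors -/

section joint

variable {X : Type} [MeasurableSpace X] {μ : Measure X} [IsProbabilityMeasure μ]

/-- the part of a joint eigenvector -/
theorem good_joint (hN : S_NUL) (hD : S_DEC) {S : X → X} (hS : MeasurePreserving S μ μ)
    (w G : Lp ℂ 2 μ) (α β : ℂ) (hα : ‖α‖ = 1) (hβ : ‖β‖ = 1) (δ : ℝ) (hδ : 0 < δ) :
    Good δ fun p => α ^ (p.2 : ℕ) * β ^ (p.1 : ℕ) *
      inner ℂ ((koop S hS)^[(p.1 : ℕ)] w) ((koop S hS)^[(p.2 : ℕ)] G) := by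
  set U := koop S hS with hU
  set E : Set (Lp ℂ 2 μ) := {v | ∃ c : ℂ, U v = c • v} with hE
  obtain ⟨J, e, w', ρ, he, hw', hρ, hw⟩ := hD (Lp ℂ 2 μ) E E
    (by
      rintro c v ⟨d, hd⟩
      exact ⟨d, by rw [map_smul, hd, smul_comm]⟩)
    (fun v hv => subset_closure (Submodule.subset_span hv)) w (δ / (‖G‖ + 1)) (by positivity)
  -- the trigonometric part
  have hT : ∀ j, IsTrig fun p => α ^ (p.2 : ℕ) * β ^ (p.1 : ℕ) *
      inner ℂ ((U^[(p.1 : ℕ)]) (e j)) ((U^[(p.2 : ℕ)]) G) := by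
    intro j
    obtain ⟨c, hc⟩ := he j
    by_cases h0 : e j = 0
    · have e1 : (fun p : ℕ+ × ℕ+ => α ^ (p.2 : ℕ) * β ^ (p.1 : ℕ) *
        (inner ℂ ((U^[(p.1 : ℕ)]) (e j)) ((U^[(p.2 : ℕ)]) G) : ℂ)) = fun _ => 0 := by
        funext p
        have e2 : (U^[(p.1 : ℕ)]) (e j) = 0 := by
          rw [← norm_eq_zero, it_norm, h0, norm_zero]
        rw [e2, inner_zero_left, mul_zero]
      rw [e1]
      exact isTrig_zero
    · have hc1 := norm_eig U hc h0
      have e1 : (fun p : ℕ+ × ℕ+ => α ^ (p.2 : ℕ) * β ^ (p.1 : ℕ) *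
          (inner ℂ ((U^[(p.1 : ℕ)]) (e j)) ((U^[(p.2 : ℕ)]) G) : ℂ)) =
          fun p => inner ℂ (e j) G * (β * (starRingEnd ℂ) c) ^ (p.1 : ℕ) *
            (α * c) ^ (p.2 : ℕ) := by
        funext p
        have h2 : (inner ℂ (e j) ((U^[(p.2 : ℕ)]) G) : ℂ) = c ^ (p.2 : ℕ) * inner ℂ (e j) G := by
          have h3 := it_inner U (p.2 : ℕ) (e j) G
          rw [it_eig U hc, inner_smul_left, map_pow] at h3
          have h4 : c * (starRingEnd ℂ) c = 1 := by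
            rw [Complex.mul_conj, Complex.normSq_eq_norm_sq, hc1]; simp
          calc (inner ℂ (e j) ((U^[(p.2 : ℕ)]) G) : ℂ)
              = (c * (starRingEnd ℂ) c) ^ (p.2 : ℕ) * inner ℂ (e j) ((U^[(p.2 : ℕ)]) G) := by
                rw [h4, one_pow, one_mul]
            _ = c ^ (p.2 : ℕ) * ((starRingEnd ℂ) c ^ (p.2 : ℕ) *
                  inner ℂ (e j) ((U^[(p.2 : ℕ)]) G)) := by rw [mul_pow]; ring
            _ = _ := by rw [h3]
        rw [it_eig U hc, inner_smul_left, map_pow, h2, mul_pow, mul_pow]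
        ring
      rw [e1]
      refine isTrig_single _ _ _ ?_ ?_
      · rw [norm_mul, hβ, RCLike.norm_conj, hc1, one_mul]
      · rw [norm_mul, hα, hc1, one_mul]
  refine ⟨_, fun p => α ^ (p.2 : ℕ) * β ^ (p.1 : ℕ) *
      inner ℂ ((U^[(p.1 : ℕ)]) w') ((U^[(p.2 : ℕ)]) G), fun p => α ^ (p.2 : ℕ) * β ^ (p.1 : ℕ) *
      inner ℂ ((U^[(p.1 : ℕ)]) ρ) ((U^[(p.2 : ℕ)]) G), ‖w'‖ * ‖G‖,
      isTrig_sum Finset.univ _ hT, ?_, ?_, ?_, ?_⟩
  · -- windows
    intro η hη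
    obtain ⟨L₀, hL₀⟩ := hN X μ S hS w' (fun v c hv => hw' v ⟨c, hv⟩)
      (η / (‖G‖ ^ 2 + 1)) (by positivity)
    refine ⟨L₀, fun L hL m n => ?_⟩
    obtain ⟨z, hz, hz2⟩ := it_adj U (m : ℕ) ((U^[(n : ℕ)]) G)
    rw [it_norm] at hz
    calc ∑ i ∈ Finset.range L, ‖α ^ (n : ℕ) * β ^ ((psh m i : ℕ+) : ℕ) *
          (inner ℂ ((U^[((psh m i : ℕ+) : ℕ)]) w') ((U^[(n : ℕ)]) G) : ℂ)‖ ^ 2
        = ∑ i ∈ Finset.range L, ‖(inner ℂ ((U^[i]) w') z : ℂ)‖ ^ 2 := by
          refine Finset.sum_congr rfl fun i _ => ?_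
          rw [norm_mul, norm_mul, norm_pow, norm_pow, hα, hβ, one_pow, one_pow, one_mul, one_mul]
          congr 2
          have e1 : ((psh m i : ℕ+) : ℕ) = (m : ℕ) + i := rfl
          rw [e1, Function.iterate_add, Function.comp, hz2]
      _ ≤ η / (‖G‖ ^ 2 + 1) * L * ‖z‖ ^ 2 := hL₀ L hL z
      _ ≤ η / (‖G‖ ^ 2 + 1) * L * (‖G‖ ^ 2 + 1) := by
          gcongr
          have := pow_le_pow_left₀ (norm_nonneg z) hz 2
          linarith
      _ = η * L := by field_simp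
  · intro p
    rw [norm_mul, norm_mul, norm_pow, norm_pow, hα, hβ, one_pow, one_pow, one_mul, one_mul]
    refine (norm_inner_le_norm _ _).trans ?_
    rw [it_norm, it_norm]
  · intro p
    rw [norm_mul, norm_mul, norm_pow, norm_pow, hα, hβ, one_pow, one_pow, one_mul, one_mul]
    refine (norm_inner_le_norm _ _).trans ?_
    rw [it_norm, it_norm]
    calc ‖ρ‖ * ‖G‖ ≤ δ / (‖G‖ + 1) * (‖G‖ + 1) := by
          gcongr
          linarith
      _ = δ := by field_simp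
  · intro p
    simp only
    rw [← Finset.mul_sum, ← sum_inner, ← it_sum, ← mul_add, ← inner_add_left, ← it_add, ← mul_add,
      ← inner_add_left, ← it_add, ← hw]

theorem koop_coe {S : X → X} (hS : MeasurePreserving S μ μ) (v : Lp ℂ 2 μ) :
    ∀ᵐ x ∂μ, (koop S hS v : X → ℂ) x = (v : X → ℂ) (S x) :=
  Lp.coeFn_compMeasurePreserving v hS

theorem coe_sum {J : ℕ} (E : Fin J → Lp ℂ 2 μ) :
    ∀ᵐ x ∂μ, ((∑ j, E j : Lp ℂ 2 μ) : X → ℂ) x = ∑ j, (E j : X → ℂ) x := by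
  induction J with
  | zero =>
    filter_upwards [Lp.coeFn_zero ℂ 2 μ] with x hx
    simp only [Finset.univ_eq_empty, Finset.sum_empty]
    exact hx
  | succ J ih =>
    rw [Fin.sum_univ_castSucc]
    filter_upwards [Lp.coeFn_add (∑ j : Fin J, E j.castSucc) (E (Fin.last J)),
      ih fun j => E j.castSucc] with x g1 g2
    rw [g1, Pi.add_apply, g2, Fin.sum_univ_castSucc]

/-- eigenvectors of the inverse of `T₁ T₂` are limits of sums of joint eigenvectors -/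
theorem mem_closure_joint (T₁ T₂ : X ≃ᵐ X) (h1 : MeasurePreserving T₁ μ μ)
    (h2 : MeasurePreserving T₂ μ μ)
    (hA : MeasurePreserving (fun x => T₁.symm (T₂.symm x)) μ μ)
    (hc : ∀ x, T₁ (T₂ x) = T₂ (T₁ x)) (hJ : JointSpectrum μ T₁ T₂) (v : Lp ℂ 2 μ) (c : ℂ)
    (hv : koop (fun x => T₁.symm (T₂.symm x)) hA v = c • v) :
    v ∈ closure (Submodule.span ℂ {v : Lp ℂ 2 μ | ∃ α β : ℂ,
      koop T₁ h1 v = α • v ∧ koop T₂ h2 v = β • v} : Set (Lp ℂ 2 μ)) := by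
  by_cases h0 : v = 0
  · rw [h0]
    exact subset_closure (Submodule.zero_mem _)
  have hc1 : ‖c‖ = 1 := norm_eig _ hv h0
  have hc0 : c ≠ 0 := fun h => by rw [h, norm_zero] at hc1; exact zero_ne_one hc1
  -- the equation for the function
  have hf : ∀ᵐ x ∂μ, (v : X → ℂ) (T₁.symm (T₂.symm x)) = c * (v : X → ℂ) x := by
    have e1 := koop_coe hA v
    rw [hv] at e1
    filter_upwards [e1, Lp.coeFn_smul c v] with x hx1 hx2
    rw [← hx1, hx2, Pi.smul_apply, smul_eq_mul]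
  have hT : MeasurePreserving (fun x => T₂ (T₁ x)) μ μ := h2.comp h1
  have hf' : ∀ᵐ x ∂μ, (v : X → ℂ) (T₁ (T₂ x)) = c⁻¹ * (v : X → ℂ) x := by
    filter_upwards [hT.quasiMeasurePreserving.ae hf] with x hx
    have e2 : T₁.symm (T₂.symm (T₂ (T₁ x))) = x := by simp
    rw [e2] at hx
    rw [hx, hc, ← mul_assoc, inv_mul_cancel₀ hc0, one_mul]
  rw [Metric.mem_closure_iff]
  intro ε hε
  obtain ⟨J, e, he, hn⟩ := hJ (v : X → ℂ) c⁻¹ (Lp.memLp v) hf' (ε / 2) (by positivity)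
  set E : Fin J → Lp ℂ 2 μ := fun j => (he j).1.toLp (e j) with hE
  refine ⟨∑ j, E j, ?_, ?_⟩
  · refine Submodule.sum_mem _ fun j _ => Submodule.subset_span ?_
    obtain ⟨hj, α, β, ha, hb⟩ := he j
    have hcoe : ∀ᵐ x ∂μ, (E j : X → ℂ) x = e j x := hj.coeFn_toLp
    refine ⟨α, β, ?_, ?_⟩
    · apply Lp.ext
      filter_upwards [koop_coe h1 (E j), Lp.coeFn_smul α (E j), hcoe,
        h1.quasiMeasurePreserving.ae hcoe, ha] with x g1 g2 g3 g4 g5
      rw [g1, g2, Pi.smul_apply, smul_eq_mul, g3, g4, g5]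
    · apply Lp.ext
      filter_upwards [koop_coe h2 (E j), Lp.coeFn_smul β (E j), hcoe,
        h2.quasiMeasurePreserving.ae hcoe, hb] with x g1 g2 g3 g4 g5
      rw [g1, g2, Pi.smul_apply, smul_eq_mul, g3, g4, g5]
  · have hsum : ∀ᵐ x ∂μ, ((∑ j, E j : Lp ℂ 2 μ) : X → ℂ) x = ∑ j, e j x := by
      have e1 : ∀ᵐ x ∂μ, ∀ j, (E j : X → ℂ) x = e j x :=
        ae_all_iff.2 fun j => (he j).1.coeFn_toLp
      filter_upwards [e1, coe_sum E] with x g1 g2
      rw [g2]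
      exact Finset.sum_congr rfl fun j _ => g1 j
    have hle : eLpNorm (((v - ∑ j, E j : Lp ℂ 2 μ)) : X → ℂ) 2 μ ≤ ENNReal.ofReal (ε / 2) := by
      refine le_trans (le_of_eq (eLpNorm_congr_ae ?_)) hn
      filter_upwards [Lp.coeFn_sub v (∑ j, E j), hsum] with x g1 g2
      rw [g1, Pi.sub_apply, g2]
    rw [dist_eq_norm, Lp.norm_def]
    calc (eLpNorm (((v - ∑ j, E j : Lp ℂ 2 μ)) : X → ℂ) 2 μ).toReal
        ≤ (ENNReal.ofReal (ε / 2)).toReal := ENNReal.toReal_mono ENNReal.ofReal_ne_top hle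
      _ = ε / 2 := ENNReal.toReal_ofReal (by positivity)
      _ < ε := by linarith

theorem seminorm2_mono {a b : ℕ+ × ℕ+ → ℂ} (h : ∀ p, ‖a p‖ ≤ ‖b p‖) :
    seminorm2 a ≤ seminorm2 b := by
  unfold seminorm2
  refine ENNReal.rpow_le_rpow ?_ (by norm_num)
  refine iSup₂_mono fun I _ => ?_
  refine limsup_le_limsup (Eventually.of_forall fun j => ?_)
  refine ENNReal.div_le_div_right ?_ _
  refine Finset.sum_le_sum fun p _ => ?_
  have h1 : ‖a p‖ₑ ≤ ‖b p‖ₑ := by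
    rw [← ofReal_norm, ← ofReal_norm]
    exact ENNReal.ofReal_le_ofReal (h p)
  gcongr

/-- **Assembly.** -/
theorem asm (hN : S_NUL) (hF : S_FOL) (hI : S_NIL) (hC : S_COR) (hD : S_DEC) (T₁ T₂ : X ≃ᵐ X)
    (h1 : MeasurePreserving T₁ μ μ) (h2 : MeasurePreserving T₂ μ μ)
    (hc : ∀ x, T₁ (T₂ x) = T₂ (T₁ x)) (hJ : JointSpectrum μ T₁ T₂) (f g h : X → ℂ)
    (hf : MemLp f ⊤ μ) (hg : MemLp g ⊤ μ) (hh : MemLp h ⊤ μ) :
    IsApproxNilsequence 1 (corr μ T₁ T₂ f g h) := by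
  have hs1 : MeasurePreserving T₁.symm μ μ := MeasurePreserving.symm T₁ h1
  have hs2 : MeasurePreserving T₂.symm μ μ := MeasurePreserving.symm T₂ h2
  have hA : MeasurePreserving (fun x => T₁.symm (T₂.symm x)) μ μ := hs1.comp hs2
  have hS : MeasurePreserving (fun x => T₂ (T₁.symm x)) μ μ := h2.comp hs1
  obtain ⟨F, G, Y, C, hFY, hYC, hYs, hYe⟩ := hC X μ T₁ T₂ h1 h2 hA hS hc f g h hf hg hh
  have hC0 : 0 ≤ C := (norm_nonneg _).trans (hYC 1 1)
  intro ε hε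
  set E : Set (Lp ℂ 2 μ) := {v : Lp ℂ 2 μ | ∃ α β : ℂ,
      koop T₁ h1 v = α • v ∧ koop T₂ h2 v = β • v} with hE
  set V : Set (Lp ℂ 2 μ) := {v : Lp ℂ 2 μ | ∃ c : ℂ,
      koop (fun x => T₁.symm (T₂.symm x)) hA v = c • v} with hV
  obtain ⟨J, e, F', ρ, he, hF', hρ, hFe⟩ := hD (Lp ℂ 2 μ) E V
    (by
      rintro c v ⟨α, β, ha, hb⟩
      exact ⟨α, β, by rw [map_smul, ha, smul_comm], by rw [map_smul, hb, smul_comm]⟩)
    (by
      rintro v ⟨c, hv⟩
      exact mem_closure_joint T₁ T₂ h1 h2 hA hc hJ v c hv)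
    F (ε / 4 / (C + 1)) (by positivity)
  -- the part of the joint eigenvectors
  have hG1 : ∀ j, Good (ε / 4 / (J + 1)) fun p => inner ℂ (e j) (Y p.1 p.2) := by
    intro j
    obtain ⟨α, β, ha, hb⟩ := he j
    by_cases h0 : e j = 0
    · have e1 : (fun p : ℕ+ × ℕ+ => (inner ℂ (e j) (Y p.1 p.2) : ℂ)) = fun _ => 0 := by
        funext p
        rw [h0, inner_zero_left]
      rw [e1]
      exact good_zero _ (by positivity)
    · obtain ⟨w, hw⟩ := hYe (e j) α β h0 ha hb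
      have e1 : (fun p : ℕ+ × ℕ+ => (inner ℂ (e j) (Y p.1 p.2) : ℂ)) = fun p =>
          α ^ (p.2 : ℕ) * β ^ (p.1 : ℕ) *
            inner ℂ ((koop (fun x => T₂ (T₁.symm x)) hS)^[(p.1 : ℕ)] w)
              ((koop (fun x => T₂ (T₁.symm x)) hS)^[(p.2 : ℕ)] G) := by
        funext p
        exact hw p.1 p.2
      rw [e1]
      exact good_joint hN hD hS w G α β (norm_eig _ ha h0) (norm_eig _ hb h0) _ (by positivity)
  have hG2 := good_sum Finset.univ _ hG1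
  obtain ⟨P, r, s, M, hP, hr, hrM, hs, hsum⟩ := hG2
  have hs' : ∀ p, ‖s p‖ ≤ ε / 4 := by
    intro p
    refine (hs p).trans ?_
    rw [Finset.card_univ, Fintype.card_fin]
    calc (J : ℝ) * (ε / 4 / (J + 1)) ≤ (J + 1) * (ε / 4 / (J + 1)) := by
          gcongr
          linarith
      _ = ε / 4 := by field_simp
  -- the retraction
  set a : ℕ+ × ℕ+ → ℂ := corr μ T₁ T₂ f g h with ha
  have haY : ∀ p : ℕ+ × ℕ+, a p = inner ℂ F (Y p.1 p.2) := fun p => hFY p.1 p.2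
  have hab : ∀ p, ‖a p‖ ≤ ‖F‖ * C := by
    intro p
    rw [haY]
    exact (norm_inner_le_norm _ _).trans (mul_le_mul_of_nonneg_left (hYC _ _) (norm_nonneg _))
  have hsup : (⨆ p, ‖a p‖ₑ) ≤ ENNReal.ofReal (‖F‖ * C) := by
    refine iSup_le fun p => ?_
    rw [← ofReal_norm]
    exact ENNReal.ofReal_le_ofReal (hab p)
  have hfin : (⨆ p, ‖a p‖ₑ) ≠ ⊤ := ne_top_of_le_ne_top ENNReal.ofReal_ne_top hsup
  set R : ℝ := (⨆ p, ‖a p‖ₑ).toReal with hR
  have haR : ∀ p, ‖a p‖ ≤ R := by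
    intro p
    have h3 : ‖a p‖ₑ ≤ ⨆ p, ‖a p‖ₑ := le_iSup (fun p => ‖a p‖ₑ) p
    have h4 := ENNReal.toReal_mono hfin h3
    rwa [toReal_enorm] at h4
  obtain ⟨N, c, u, v, hu, hv, hPeq⟩ := hP
  obtain ⟨b, hb1, hb2, hb3⟩ := hI N c u v R ENNReal.toReal_nonneg hu hv
  refine ⟨b, fun p => a p - b p, fun p => by ring, hb1, ?_, ?_⟩
  · refine iSup_le fun p => ?_
    rw [← ofReal_norm]
    calc ENNReal.ofReal ‖b p‖ ≤ ENNReal.ofReal R := ENNReal.ofReal_le_ofReal (hb2 p)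
      _ = ⨆ p, ‖a p‖ₑ := ENNReal.ofReal_toReal hfin
  · set r₁ : ℕ+ × ℕ+ → ℂ := fun p => inner ℂ F' (Y p.1 p.2) with hr1
    set r₃ : ℕ+ × ℕ+ → ℂ := fun p => s p + inner ℂ ρ (Y p.1 p.2) with hr3
    have hdec : ∀ p, a p - P p = r₁ p + r p + r₃ p := by
      intro p
      have e1 : a p = ∑ j, (inner ℂ (e j) (Y p.1 p.2) : ℂ) + inner ℂ F' (Y p.1 p.2) +
          inner ℂ ρ (Y p.1 p.2) := by
        rw [haY, hFe, inner_add_left, inner_add_left, sum_inner]
      have e2 : ∑ j, (inner ℂ (e j) (Y p.1 p.2) : ℂ) = P p + r p + s p := hsum p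
      rw [e1, e2]
      simp only [hr1, hr3]
      ring
    have hle : ∀ p, ‖a p - b p‖ ≤ ‖r₁ p + r p + r₃ p‖ := by
      intro p
      rw [← hdec, hPeq]
      exact hb3 p (a p) (haR p)
    refine (seminorm2_mono hle).trans ?_
    have hfol := hF r₁ r r₃ (max (‖F'‖ * C) M) (ε / 2) (by positivity) ?_ ?_ ?_ ?_ ?_
    · have e2 : 2 * (ε / 2) = ε := by ring
      rwa [e2] at hfol
    · intro p
      refine le_trans ?_ (le_max_left _ _)
      exact (norm_inner_le_norm _ _).trans (mul_le_mul_of_nonneg_left (hYC _ _) (norm_nonneg _))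
    · intro p
      exact (hrM p).trans (le_max_right _ _)
    · intro p
      refine (norm_add_le _ _).trans ?_
      have e3 : ‖(inner ℂ ρ (Y p.1 p.2) : ℂ)‖ ≤ ε / 4 := by
        refine (norm_inner_le_norm _ _).trans ?_
        calc ‖ρ‖ * ‖Y p.1 p.2‖ ≤ ε / 4 / (C + 1) * (C + 1) := by
              gcongr
              linarith [hYC p.1 p.2]
          _ = ε / 4 := by field_simp
      linarith [hs' p]
    · intro η hη
      obtain ⟨L₀, hL₀⟩ := hN X μ _ hA F' (fun v c hv => hF' v ⟨c, hv⟩) (η / (C ^ 2 + 1))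
        (by positivity)
      refine ⟨L₀ + 1, by omega, fun m n => ?_⟩
      calc ∑ i ∈ Finset.range (L₀ + 1), ‖r₁ (psh m i, psh n i)‖ ^ 2
          = ∑ i ∈ Finset.range (L₀ + 1), ‖(inner ℂ ((koop (fun x => T₁.symm (T₂.symm x)) hA)^[i] F')
              (Y m n) : ℂ)‖ ^ 2 := by
            refine Finset.sum_congr rfl fun i _ => ?_
            simp only [hr1]
            rw [hYs]
        _ ≤ η / (C ^ 2 + 1) * ((L₀ + 1 : ℕ) : ℝ) * ‖Y m n‖ ^ 2 := hL₀ (L₀ + 1) (by omega) _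
        _ ≤ η / (C ^ 2 + 1) * ((L₀ + 1 : ℕ) : ℝ) * (C ^ 2 + 1) := by
            gcongr
            have := pow_le_pow_left₀ (norm_nonneg _) (hYC m n) 2
            linarith
        _ = η * ((L₀ + 1 : ℕ) : ℝ) := by field_simp
    · intro η hη
      obtain ⟨L₀, hL₀⟩ := hr η hη
      exact ⟨L₀ + 1, by omega, fun m n => hL₀ (L₀ + 1) (by omega) m n⟩

end joint

end Pool.Agent.Work.MP_8ac988_an.EP
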