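import Mathlib

/-!
# MP_8ac988_an, companion theorem: definitions and statements of the parts

`a (m, n) = ∫ f · T₁^m T₂^n g · T₁^n T₂^m h dμ` is an approximate 1-step nilsequence in 2 variables
if every eigenfunction of `T₁ T₂` is approximated by sums of joint eigenfunctions of `T₁` and `T₂`,
in particular if `T₁ T₂` is ergodic.

The first six definitions are those of the hand-in `NotOneStep`.
-/

set_option autoImplicit false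

open MeasureTheory Filter Topology
open scoped ENNReal Manifold ContDiff

namespace Pool.Agent.Work.MP_8ac988_an.EP

/-- `a : ℕ² → ℂ` (`ℕ = {1, 2, ...}`) is an `s`-step nilsequence in 2 variables: there are a
finite-dimensional real Lie group `G`, nilpotent of step at most `s` (its lower central series
reaches the trivial group after `s` steps), a discrete cocompact subgroup `Γ`, a continuous
`Ψ : G ⧸ Γ → ℂ` and commuting `τ₁ τ₂ ∈ G` with `a (m, n) = Ψ (τ₁ ^ m * τ₂ ^ n • e_Y)`, where `e_Y`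
is the image of the identity. -/
def IsNilsequence (s : ℕ) (a : ℕ+ × ℕ+ → ℂ) : Prop :=
  ∃ (d : ℕ) (G : Type) (_ : TopologicalSpace G)
    (_ : ChartedSpace (EuclideanSpace ℝ (Fin d)) G) (_ : Group G)
    (_ : LieGroup (𝓡 d) ∞ G) (Γ : Subgroup G) (Ψ : G ⧸ Γ → ℂ) (τ₁ τ₂ : G),
    (Subgroup.lowerCentralSeries (⊤ : Subgroup G) s = ⊥) ∧ DiscreteTopology Γ ∧
    CompactSpace (G ⧸ Γ) ∧ Continuous Ψ ∧ Commute τ₁ τ₂ ∧
    ∀ m n : ℕ+, a (m, n) = Ψ ((τ₁ ^ (m : ℕ) * τ₂ ^ (n : ℕ)) • ((1 : G) : G ⧸ Γ))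

/-- The inclusion `ℕ² ⊆ ℤ²` (`ℕ = {1, 2, ...}`). -/
def embZ (p : ℕ+ × ℕ+) : ℤ × ℤ := (((p.1 : ℕ) : ℤ), ((p.2 : ℕ) : ℤ))

/-- Følner sequences in `ℕ²`: nonempty finite sets `I j` such that, for every `k ∈ ℤ²`,
`|(I j + k) ∆ I j| / |I j| → 0` (computed in `ℤ²`). -/
def IsFolner (I : ℕ → Finset (ℕ+ × ℕ+)) : Prop :=
  (∀ j, (I j).Nonempty) ∧
  ∀ k : ℤ × ℤ, Tendsto (fun j =>
    ((symmDiff (((I j).image embZ).image (fun p => p + k)) ((I j).image embZ)).card : ℝ) /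
      ((I j).card : ℝ)) atTop (𝓝 0)

/-- The seminorm `‖a‖₂ = (sup over Følner sequences of limsup of the averages of |a|²)^(1/2)`,
with values in `[0, ∞]`. -/
noncomputable def seminorm2 (a : ℕ+ × ℕ+ → ℂ) : ℝ≥0∞ :=
  (⨆ (I : ℕ → Finset (ℕ+ × ℕ+)) (_ : IsFolner I),
    limsup (fun j => (∑ p ∈ I j, ‖a p‖ₑ ^ 2) / ((I j).card : ℝ≥0∞)) atTop) ^ (1 / 2 : ℝ)

/-- A (bounded) `a : ℕ² → ℂ` is an approximate `s`-step nilsequence in 2 variables: for every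
`ε > 0` one can write `a = ast + aer` with `ast` an `s`-step nilsequence, `‖ast‖_∞ ≤ ‖a‖_∞` and
`‖aer‖₂ ≤ ε`. -/
def IsApproxNilsequence (s : ℕ) (a : ℕ+ × ℕ+ → ℂ) : Prop :=
  ∀ ε : ℝ, 0 < ε → ∃ ast aer : ℕ+ × ℕ+ → ℂ, (∀ p, a p = ast p + aer p) ∧
    IsNilsequence s ast ∧ (⨆ p, ‖ast p‖ₑ) ≤ (⨆ p, ‖a p‖ₑ) ∧ seminorm2 aer ≤ ENNReal.ofReal ε

/-- The sequence `a(m, n) = ∫ f · T₁^m T₂^n g · T₁^n T₂^m h dμ` (with `T g = g ∘ T`). -/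
noncomputable def corr {X : Type} [MeasurableSpace X] (μ : Measure X) (T₁ T₂ : X ≃ᵐ X)
    (f g h : X → ℂ) (p : ℕ+ × ℕ+) : ℂ :=
  ∫ x, f x * g (T₁^[(p.1 : ℕ)] (T₂^[(p.2 : ℕ)] x)) * h (T₁^[(p.2 : ℕ)] (T₂^[(p.1 : ℕ)] x)) ∂μ

/-- Every eigenfunction `χ` of `T₁ T₂` in `L²(μ)` is a limit in `L²(μ)` of finite sums of joint
eigenfunctions of `T₁` and `T₂`. -/
def JointSpectrum {X : Type} [MeasurableSpace X] (μ : Measure X) (T₁ T₂ : X → X) : Prop :=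
  ∀ (χ : X → ℂ) (c : ℂ), MemLp χ 2 μ → (∀ᵐ x ∂μ, χ (T₁ (T₂ x)) = c * χ x) →
    ∀ ε : ℝ, 0 < ε → ∃ (J : ℕ) (e : Fin J → X → ℂ),
      (∀ j, MemLp (e j) 2 μ ∧ ∃ α β : ℂ, (∀ᵐ x ∂μ, e j (T₁ x) = α * e j x) ∧
        ∀ᵐ x ∂μ, e j (T₂ x) = β * e j x) ∧
      eLpNorm (fun x => χ x - ∑ j, e j x) 2 μ ≤ ENNReal.ofReal ε

/-! ## Parts -/

/-- The Koopman operator `v ↦ v ∘ S` on `L²(μ)`. -/
noncomputable abbrev koop {X : Type} [MeasurableSpace X] {μ : Measure X} (S : X → X)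
    (hS : MeasurePreserving S μ μ) : Lp ℂ 2 μ →ₗᵢ[ℂ] Lp ℂ 2 μ :=
  Lp.compMeasurePreservingₗᵢ ℂ S hS

/-- Part NUL: if `x` is orthogonal to all eigenvectors of the Koopman operator `U` then
`(1/L) ∑_{i<L} |⟨U^i x, y⟩|² ≤ ε ‖y‖²` for all large `L` and all `y`.

Proof. Put `K_N y = (1/N) ∑_{n<N} ⟨U^n x, y⟩ U^n x`. The kernel of `K_N` is the Birkhoff average of
`x ⊗ conj x` in `L²(μ ⊗ μ)` under the Koopman operator of `S × S`, so it converges in `L²(μ ⊗ μ)` by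
the mean ergodic theorem; by Cauchy-Schwarz `K_N` is Cauchy, so it converges, in operator norm. The
limit `K` is compact (limit of operators of finite rank), symmetric, and `K U = U K`. If `K ≠ 0` it
has an eigenvalue `t ≠ 0` (spectral theorem), the eigenspace is finite-dimensional and `U`-invariant,
so it contains an eigenvector `v` of `U`; but then `⟨U^n x, v⟩ = 0` for all `n` and `K v = 0`,
a contradiction. So `‖K_N‖ → 0`, and `⟨y, K_N y⟩` is the average in question. -/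
def S_NUL : Prop :=
  ∀ (X : Type) [MeasurableSpace X] (μ : Measure X) [IsProbabilityMeasure μ] (S : X → X)
    (hS : MeasurePreserving S μ μ) (x : Lp ℂ 2 μ),
    (∀ (v : Lp ℂ 2 μ) (c : ℂ), koop S hS v = c • v → inner ℂ x v = 0) →
    ∀ ε : ℝ, 0 < ε → ∃ L₀ : ℕ, ∀ L : ℕ, L₀ ≤ L → ∀ y : Lp ℂ 2 μ,
      ∑ i ∈ Finset.range L, ‖(inner ℂ ((koop S hS)^[i] x) y : ℂ)‖ ^ 2 ≤ ε * L * ‖y‖ ^ 2

/-- `m + i` in `ℕ+`. -/
def psh (m : ℕ+) (i : ℕ) : ℕ+ := ⟨(m : ℕ) + i, Nat.add_pos_left m.pos i⟩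

/-- Part FOL: from windows to Følner averages. If `∑_{i<L} |r₁ (m+i, n+i)|² ≤ η L` for some `L` and
all `m, n` (for every `η > 0`), the same for `r₂` with `(m+i, n)`, and `|r₃| ≤ δ`, then
`‖r₁ + r₂ + r₃‖₂ ≤ 2 δ`.

Proof. `|r|² ≤ 3 (|r₁|² + |r₂|² + |r₃|²)`. For a Følner sequence `I` and a shift `d`, the average of
`φ = |r₁|²` over `I j` differs from the average of `φ (· + d)` over `I j` by at most
`M² |(I j + d) ∆ I j| / |I j| → 0`; average over `d = (i, i)`, `i < L`. -/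
def S_FOL : Prop :=
  ∀ (r₁ r₂ r₃ : ℕ+ × ℕ+ → ℂ) (M δ : ℝ), 0 ≤ δ → (∀ p, ‖r₁ p‖ ≤ M) → (∀ p, ‖r₂ p‖ ≤ M) →
    (∀ p, ‖r₃ p‖ ≤ δ) →
    (∀ η : ℝ, 0 < η → ∃ L : ℕ, 0 < L ∧ ∀ m n : ℕ+,
      ∑ i ∈ Finset.range L, ‖r₁ (psh m i, psh n i)‖ ^ 2 ≤ η * L) →
    (∀ η : ℝ, 0 < η → ∃ L : ℕ, 0 < L ∧ ∀ m n : ℕ+,
      ∑ i ∈ Finset.range L, ‖r₂ (psh m i, n)‖ ^ 2 ≤ η * L) →
    seminorm2 (fun p => r₁ p + r₂ p + r₃ p) ≤ ENNReal.ofReal (2 * δ)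

/-- Part NIL: a trigonometric polynomial, retracted to the disc of radius `R`, is a 1-step
nilsequence.

Proof. `G` is the multiplicative form of `EuclideanSpace ℝ (Fin J)`, `Γ` its integer points,
`Ψ (x) = ρ (∑ c_j e(x_j))`, where `ρ` is the retraction of `ℂ` to the closed disc of radius `R`
(`ρ z = z` if `‖z‖ ≤ R`, else `R z / ‖z‖`), `τ₁ = (args of the u_j) / 2π`, `τ₂` the same for `v_j`.
`‖w - ρ z‖ ≤ ‖w - z‖` for `‖w‖ ≤ R`. -/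
def S_NIL : Prop :=
  ∀ (J : ℕ) (c u v : Fin J → ℂ) (R : ℝ), 0 ≤ R → (∀ j, ‖u j‖ = 1) → (∀ j, ‖v j‖ = 1) →
    ∃ b : ℕ+ × ℕ+ → ℂ, IsNilsequence 1 b ∧ (∀ p, ‖b p‖ ≤ R) ∧
      ∀ (p : ℕ+ × ℕ+) (w : ℂ), ‖w‖ ≤ R →
        ‖w - b p‖ ≤ ‖w - ∑ j, c j * u j ^ (p.1 : ℕ) * v j ^ (p.2 : ℕ)‖

/-- Part ERG: if `T₁ T₂` is ergodic then its eigenfunctions are joint eigenfunctions.

Proof. Let `χ ∘ T₁ ∘ T₂ = c χ` in `L²`. `|χ|` is invariant up to `|c|`, and `|c| = 1` or `χ = 0` by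
the preservation of the `L²` norm; so `|χ|²` is a.e. constant, `= s > 0`. `χ ∘ T₁` satisfies the same
equation, so `(χ ∘ T₁) conj χ` is invariant, hence a.e. a constant `k`, and `χ ∘ T₁ = (k / s) χ`; the
same for `T₂`. Take `J = 1`, `e = χ`. -/
def S_ERG : Prop :=
  ∀ (X : Type) [MeasurableSpace X] (μ : Measure X) [IsProbabilityMeasure μ] (T₁ T₂ : X → X),
    MeasurePreserving T₁ μ μ → MeasurePreserving T₂ μ μ → (∀ x, T₁ (T₂ x) = T₂ (T₁ x)) →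
    Ergodic (fun x => T₁ (T₂ x)) μ → JointSpectrum μ T₁ T₂

/-- Part COR: the correlation as an inner product. `F` is the class of `conj f`, `Y m n` the class of
`(g ∘ T₁^m T₂^n) (h ∘ T₁^n T₂^m)`, `G` the class of `g`, and `w` the class of `e conj h` for a joint
eigenfunction `e`.

Proof. `Y (m+i) (n+i) = Y m n ∘ (T₁ T₂)^i`, change of variables. For the last part `|α| = |β| = 1`
(isometries, `e ≠ 0`), so `conj e = α^n β^m (conj e) ∘ T₁^n T₂^m` a.e. and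
`∫ conj e (g ∘ T₁^m T₂^n) (h ∘ T₁^n T₂^m) = α^n β^m ∫ (conj w ∘ T₁^n T₂^m) (g ∘ T₁^m T₂^n)`,
where `T₁^n T₂^m = S^m T₁^(m+n)`, `T₁^m T₂^n = S^n T₁^(m+n)` with `S = T₂ T₁⁻¹`. -/
def S_COR : Prop :=
  ∀ (X : Type) [MeasurableSpace X] (μ : Measure X) [IsProbabilityMeasure μ] (T₁ T₂ : X ≃ᵐ X)
    (h1 : MeasurePreserving T₁ μ μ) (h2 : MeasurePreserving T₂ μ μ)
    (hA : MeasurePreserving (fun x => T₁.symm (T₂.symm x)) μ μ)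
    (hS : MeasurePreserving (fun x => T₂ (T₁.symm x)) μ μ),
    (∀ x, T₁ (T₂ x) = T₂ (T₁ x)) → ∀ f g h : X → ℂ, MemLp f ⊤ μ → MemLp g ⊤ μ → MemLp h ⊤ μ →
    ∃ (F G : Lp ℂ 2 μ) (Y : ℕ+ → ℕ+ → Lp ℂ 2 μ) (C : ℝ),
      (∀ m n, corr μ T₁ T₂ f g h (m, n) = inner ℂ F (Y m n)) ∧ (∀ m n, ‖Y m n‖ ≤ C) ∧
      (∀ (x : Lp ℂ 2 μ) (m n : ℕ+) (i : ℕ),
        (inner ℂ x (Y (psh m i) (psh n i)) : ℂ) =
          inner ℂ ((koop (fun x => T₁.symm (T₂.symm x)) hA)^[i] x) (Y m n)) ∧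
      ∀ (e : Lp ℂ 2 μ) (α β : ℂ), e ≠ 0 → koop T₁ h1 e = α • e → koop T₂ h2 e = β • e →
        ∃ w : Lp ℂ 2 μ, ∀ m n : ℕ+, (inner ℂ e (Y m n) : ℂ) = α ^ (n : ℕ) * β ^ (m : ℕ) *
          inner ℂ ((koop (fun x => T₂ (T₁.symm x)) hS)^[(m : ℕ)] w)
            ((koop (fun x => T₂ (T₁.symm x)) hS)^[(n : ℕ)] G)

/-- Part DEC: decomposition along a set of vectors. -/
def S_DEC : Prop :=
  ∀ (H : Type) [NormedAddCommGroup H] [InnerProductSpace ℂ H] [CompleteSpace H] (G V : Set H),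
    (∀ (c : ℂ), ∀ v ∈ G, c • v ∈ G) → (∀ v ∈ V, v ∈ closure (Submodule.span ℂ G : Set H)) →
    ∀ (x : H) (δ : ℝ), 0 < δ → ∃ (J : ℕ) (e : Fin J → H) (x' r : H),
      (∀ j, e j ∈ G) ∧ (∀ v ∈ V, inner ℂ x' v = 0) ∧ ‖r‖ ≤ δ ∧ x = (∑ j, e j) + x' + r

end Pool.Agent.Work.MP_8ac988_an.EP
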